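import Pool.Agent.Lib.MP_5c8dfa_al.LS.Fix

/-! A transitive group with a small base has an asymmetric subset. -/

namespace Pool.Agent.Lib.MP_5c8dfa_al.LS

open Finset MulAction Equiv

variable {Ω : Type} [Fintype Ω] [DecidableEq Ω]

theorem asym_fiber {G : Subgroup (Perm Ω)} [Fintype G] [IsPretransitive G Ω] (b x : Ω) :
    Fintype.card Ω * (univ.filter fun u : G => (u : Perm Ω) b = x).card = Fintype.card G := by
  have key : ∀ y : Ω, (univ.filter fun u : G => (u : Perm Ω) b = y).card =
      (univ.filter fun u : G => (u : Perm Ω) b = x).card := by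
    intro y
    obtain ⟨v, hv⟩ := exists_smul_eq G y x
    have hv' : (v : Perm Ω) y = x := hv
    refine card_bij (fun u _ => v * u) ?_ ?_ ?_
    · intro u hu
      simp only [mem_filter, mem_univ, true_and] at hu ⊢
      simp [hu, hv']
    · intro u _ w _ h
      exact mul_left_cancel h
    · intro w hw
      simp only [mem_filter, mem_univ, true_and] at hw
      refine ⟨v⁻¹ * w, ?_, by simp⟩
      simp only [mem_filter, mem_univ, true_and]
      simp [hw, ← hv']
  have h := card_eq_sum_card_fiberwise (s := (univ : Finset G)) (t := (univ : Finset Ω))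
    (f := fun u : G => (u : Perm Ω) b) (fun _ _ => mem_coe.2 (mem_univ _))
  rw [card_univ] at h
  rw [h, sum_congr rfl (fun y _ => key y), sum_const, card_univ, smul_eq_mul]

theorem asym_count {G : Subgroup (Perm Ω)} [Fintype G] [IsPretransitive G Ω] (b : Ω)
    (S : Finset Ω) :
    Fintype.card Ω * (univ.filter fun u : G => (u : Perm Ω) b ∈ S).card =
      Fintype.card G * S.card := by
  have h := card_eq_sum_card_fiberwise (s := univ.filter fun u : G => (u : Perm Ω) b ∈ S) (t := S)
    (f := fun u : G => (u : Perm Ω) b) (fun u hu => by simpa using hu)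
  rw [h, mul_sum, mul_comm (Fintype.card G), ← smul_eq_mul, ← sum_const]
  refine sum_congr rfl fun x hx => ?_
  rw [← asym_fiber (G := G) b x]
  congr 2
  ext u
  simp only [mem_filter, mem_univ, true_and, and_iff_right_iff_imp]
  intro h
  rwa [h]

theorem asym_conj_sum {G : Subgroup (Perm Ω)} [Fintype G] [IsPretransitive G Ω] (B : Finset Ω)
    (g : G) :
    Fintype.card Ω * ∑ u : G, (B.filter fun b => ((u⁻¹ * g * u : G) : Perm Ω) b ≠ b).card =
      B.card * (Fintype.card G * (g : Perm Ω).support.card) := by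
  have h : ∑ u : G, (B.filter fun b => ((u⁻¹ * g * u : G) : Perm Ω) b ≠ b).card =
      ∑ b ∈ B, (univ.filter fun u : G => (u : Perm Ω) b ∈ (g : Perm Ω).support).card := by
    simp only [card_filter]
    rw [sum_comm]
    refine sum_congr rfl fun b _ => sum_congr rfl fun u _ => ?_
    congr 1
    simp [Equiv.symm_apply_eq]
  rw [h, mul_sum, sum_congr rfl (fun b _ => asym_count (G := G) b _), sum_const, smul_eq_mul]

theorem asym_weight {G : Subgroup (Perm Ω)} [Fintype G] {B : Finset Ω} (hB : IsBase G B) {c : ℝ}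
    (hc : 0 ≤ c) :
    ∑ g : G, c ^ (B.filter fun b => (g : Perm Ω) b ≠ b).card ≤
      (1 + Fintype.card Ω * c) ^ B.card := by
  let e : G → (B → Ω) := fun g b => (g : Perm Ω) b
  have he : Function.Injective e := by
    intro g h hgh
    have h1 : ∀ s ∈ B, (h⁻¹ * g) • s = s := by
      intro s hs
      have h2 : (g : Perm Ω) s = (h : Perm Ω) s := congrFun hgh ⟨s, hs⟩
      change ((h⁻¹ * g : G) : Perm Ω) s = s
      simp [h2]
    have h3 : h⁻¹ * g = 1 := by
      apply Subtype.ext
      ext x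
      exact hB _ h1 x
    exact (inv_mul_eq_one.1 h3).symm
  let w : B → Ω → ℝ := fun b x => if x ≠ b then c else 1
  have hw : ∀ b x, 0 ≤ w b x := by
    intro b x
    simp only [w]
    split_ifs
    · exact hc
    · exact zero_le_one
  have h1 : ∀ g : G, c ^ (B.filter fun b => (g : Perm Ω) b ≠ b).card = ∏ b : B, w b (e g b) := by
    intro g
    rw [← prod_const, prod_filter, ← prod_coe_sort]
  have h2 : ∑ g : G, ∏ b : B, w b (e g b) ≤ ∑ f : B → Ω, ∏ b : B, w b (f b) := by
    rw [← sum_image (s := (univ : Finset G)) (g := e) (f := fun f : B → Ω => ∏ b : B, w b (f b))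
      (fun x _ y _ h => he h)]
    exact sum_le_sum_of_subset_of_nonneg (subset_univ _)
      (fun f _ _ => prod_nonneg fun b _ => hw b _)
  have h3 : ∑ f : B → Ω, ∏ b : B, w b (f b) = ∏ b : B, ∑ x : Ω, w b x := by
    rw [prod_univ_sum, Fintype.piFinset_univ]
  have h4 : ∀ b : B, ∑ x : Ω, w b x ≤ 1 + Fintype.card Ω * c := by
    intro b
    have h5 : ∀ x : Ω, w b x ≤ (if x = b then 1 else 0) + c := by
      intro x
      simp only [w]
      by_cases hx : x = b
      · simp [hx, hc]
      · simp [hx]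
    refine (sum_le_sum fun x _ => h5 x).trans ?_
    rw [sum_add_distrib, sum_const, card_univ, nsmul_eq_mul]
    simp
  rw [sum_congr rfl fun g _ => h1 g]
  refine h2.trans (h3.le.trans ?_)
  refine (prod_le_prod (fun b _ => sum_nonneg fun x _ => hw b x) (fun b _ => h4 b)).trans ?_
  rw [prod_const, card_univ, Fintype.card_coe]

theorem asym_jensen {G : Subgroup (Perm Ω)} [Fintype G] [IsPretransitive G Ω] [Nonempty Ω]
    {B : Finset Ω} {L : ℕ} (hL : 2 * B.card * L ≤ Fintype.card Ω) (g : G) :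
    (Fintype.card G : ℝ) * Real.exp (-((g : Perm Ω).support.card * (Real.log 2 / 2))) ≤
      ∑ u : G, ((2 : ℝ)⁻¹ ^ L) ^ (B.filter fun b => ((u⁻¹ * g * u : G) : Perm Ω) b ≠ b).card := by
  set m : ℝ := (g : Perm Ω).support.card * (Real.log 2 / 2) with hm
  set X : G → ℕ := fun u => (B.filter fun b => ((u⁻¹ * g * u : G) : Perm Ω) b ≠ b).card with hX
  have hl : 0 < Real.log 2 := Real.log_pos (by norm_num)
  have h1 : ∀ u : G, Real.exp (-m) * (1 + m - L * Real.log 2 * X u) ≤ ((2 : ℝ)⁻¹ ^ L) ^ X u := by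
    intro u
    have h2 : ((2 : ℝ)⁻¹ ^ L) ^ X u = Real.exp (-m) * Real.exp (m - L * Real.log 2 * X u) := by
      rw [← Real.exp_add, ← pow_mul]
      have : -m + (m - L * Real.log 2 * X u) = ((L * X u : ℕ) : ℝ) * (-Real.log 2) := by
        push_cast
        ring
      rw [this, Real.exp_nat_mul, Real.exp_neg, Real.exp_log (by norm_num)]
    rw [h2]
    refine mul_le_mul_of_nonneg_left ?_ (Real.exp_pos _).le
    have := Real.add_one_le_exp (m - L * Real.log 2 * X u)
    linarith
  refine le_trans ?_ (sum_le_sum fun u _ => h1 u)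
  rw [← mul_sum, mul_comm]
  refine mul_le_mul_of_nonneg_left ?_ (Real.exp_pos _).le
  rw [sum_sub_distrib, sum_const, card_univ, nsmul_eq_mul, ← mul_sum]
  have hn : (0 : ℝ) < Fintype.card Ω := by exact_mod_cast Fintype.card_pos
  have h3 : (Fintype.card Ω : ℝ) * ∑ u : G, (X u : ℝ) =
      B.card * (Fintype.card G * (g : Perm Ω).support.card) := by
    exact_mod_cast asym_conj_sum B g
  have hL' : (2 : ℝ) * B.card * L ≤ Fintype.card Ω := by exact_mod_cast hL
  have h4 : (L : ℝ) * ∑ u : G, (X u : ℝ) ≤ Fintype.card G * (g : Perm Ω).support.card / 2 := by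
    refine le_of_mul_le_mul_left ?_ hn
    have h5 : (0 : ℝ) ≤ (Fintype.card G : ℝ) * (g : Perm Ω).support.card := by positivity
    calc (Fintype.card Ω : ℝ) * (L * ∑ u : G, (X u : ℝ))
        = L * (Fintype.card Ω * ∑ u : G, (X u : ℝ)) := by ring
      _ = (2 * B.card * L) * (Fintype.card G * (g : Perm Ω).support.card / 2) := by
        rw [h3]; ring
      _ ≤ _ := mul_le_mul_of_nonneg_right hL' (by positivity)
  have h6 := mul_le_mul_of_nonneg_left h4 hl.le
  rw [hm]
  nlinarith

theorem asym_small {G : Subgroup (Perm Ω)} [Fintype G] [IsPretransitive G Ω] [Nonempty Ω]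
    {B : Finset Ω} (hB : IsBase G B) {L : ℕ} (hL : 2 * B.card * L ≤ Fintype.card Ω)
    (hL2 : 4 * Fintype.card Ω ^ 2 ≤ 2 ^ L) :
    ∑ g ∈ (univ : Finset G).erase 1,
      Real.exp (-((g : Perm Ω).support.card * (Real.log 2 / 2))) ≤ 1 / 3 := by
  set c : ℝ := (2 : ℝ)⁻¹ ^ L with hc
  have hc0 : 0 ≤ c := by positivity
  set w : G → ℝ := fun g => c ^ (B.filter fun b => (g : Perm Ω) b ≠ b).card with hw
  have hG : (0 : ℝ) < Fintype.card G := by exact_mod_cast Fintype.card_pos
  have h1 : ∑ g ∈ (univ : Finset G).erase 1, w g ≤ 1 / 3 := by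
    have h2 := asym_weight hB hc0
    have h3 : w 1 = 1 := by simp [hw]
    have h4 := add_sum_erase (univ : Finset G) w (mem_univ 1)
    have hb : (B.card : ℝ) ≤ Fintype.card Ω := by exact_mod_cast card_le_univ B
    have hL3 : (4 : ℝ) * (Fintype.card Ω : ℝ) ^ 2 ≤ 2 ^ L := by exact_mod_cast hL2
    have hc1 : c * 2 ^ L = 1 := by
      rw [hc, ← mul_pow]
      norm_num
    have hn : (0 : ℝ) ≤ Fintype.card Ω := by positivity
    have h5 : (B.card : ℝ) * (Fintype.card Ω * c) ≤ 1 / 4 := by
      have h6 := mul_le_mul_of_nonneg_left hL3 hc0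
      have h7 := mul_le_mul_of_nonneg_right hb (mul_nonneg hn hc0)
      nlinarith
    have h8 : (1 + Fintype.card Ω * c) ^ B.card ≤ Real.exp (B.card * (Fintype.card Ω * c)) := by
      rw [Real.exp_nat_mul]
      refine pow_le_pow_left₀ (by positivity) ?_ _
      have := Real.add_one_le_exp (Fintype.card Ω * c)
      linarith
    have h9 : Real.exp (1 / 4) ≤ 1 / (1 - 1 / 4) :=
      Real.exp_bound_div_one_sub_of_interval (by norm_num) (by norm_num)
    have h10 := Real.exp_le_exp.2 h5
    have h11 : ∑ g : G, w g ≤ 4 / 3 := by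
      refine h2.trans (h8.trans (h10.trans (h9.trans ?_)))
      norm_num
    linarith
  refine le_of_mul_le_mul_left ?_ hG
  rw [mul_sum]
  refine (sum_le_sum fun g _ => asym_jensen hL g).trans ?_
  rw [sum_comm]
  have h12 : ∀ u : G, ∑ g ∈ (univ : Finset G).erase 1, w (u⁻¹ * g * u) =
      ∑ g ∈ (univ : Finset G).erase 1, w g := by
    intro u
    refine sum_bij (fun g _ => u⁻¹ * g * u) ?_ ?_ ?_ (fun _ _ => rfl)
    · intro g hg
      simp only [mem_erase, mem_univ, and_true] at hg ⊢
      intro h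
      apply hg
      have : g = u * (u⁻¹ * g * u) * u⁻¹ := by group
      rw [this, h]
      simp
    · intro g _ h _ hh
      exact mul_left_cancel (mul_right_cancel hh)
    · intro h hh
      simp only [mem_erase, mem_univ, and_true] at hh
      refine ⟨u * h * u⁻¹, ?_, by group⟩
      simp only [mem_erase, mem_univ, and_true]
      intro h'
      apply hh
      have : h = u⁻¹ * (u * h * u⁻¹) * u := by group
      rw [this, h']
      simp
  calc ∑ u : G, ∑ g ∈ (univ : Finset G).erase 1, w (u⁻¹ * g * u)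
      = ∑ u : G, ∑ g ∈ (univ : Finset G).erase 1, w g := sum_congr rfl fun u _ => h12 u
    _ ≤ ∑ _u : G, (1 / 3 : ℝ) := sum_le_sum fun _ _ => h1
    _ = _ := by rw [sum_const, card_univ, nsmul_eq_mul]

theorem asym_fix (g : Perm Ω) :
    (((univ : Finset (Finset Ω)).filter fun Δ => ∀ x, g x ∈ Δ ↔ x ∈ Δ).card : ℝ) ≤
      2 ^ Fintype.card Ω * Real.exp (-(g.support.card * (Real.log 2 / 2))) := by
  have h : (((univ : Finset (Finset Ω)).filter fun Δ => ∀ x, g x ∈ Δ ↔ x ∈ Δ).card : ℝ) ^ 2 *
      2 ^ g.support.card ≤ 4 ^ Fintype.card Ω := by exact_mod_cast fix_card g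
  have h1 : Real.exp (-(g.support.card * (Real.log 2 / 2))) ^ 2 * 2 ^ g.support.card = 1 := by
    have h2 : (2 : ℝ) ^ g.support.card = Real.exp (g.support.card * Real.log 2) := by
      rw [Real.exp_nat_mul, Real.exp_log (by norm_num)]
    rw [h2, ← Real.exp_nat_mul, ← Real.exp_add, ← Real.exp_zero]
    congr 1
    push_cast
    ring
  refine le_of_sq_le_sq ?_ (by positivity)
  have h3 : (0 : ℝ) < 2 ^ g.support.card := by positivity
  refine le_of_mul_le_mul_right ?_ h3
  rw [mul_pow, mul_assoc, h1, mul_one, ← pow_mul, mul_comm (Fintype.card Ω) 2, pow_mul]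
  norm_num
  exact h

theorem asym_half [Nonempty Ω] :
    2 * ((univ : Finset (Finset Ω)).filter fun Δ => 2 * Δ.card = Fintype.card Ω).card ≤
      2 ^ Fintype.card Ω := by
  obtain ⟨a⟩ := ‹Nonempty Ω›
  have h1 := card_filter_add_card_filter_not (s := (univ : Finset (Finset Ω)))
    (fun Δ => 2 * Δ.card = Fintype.card Ω)
  rw [card_univ, Fintype.card_finset] at h1
  have h2 : ((univ : Finset (Finset Ω)).filter fun Δ => 2 * Δ.card = Fintype.card Ω).card ≤
      ((univ : Finset (Finset Ω)).filter fun Δ => ¬ 2 * Δ.card = Fintype.card Ω).card := by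
    refine card_le_card_of_injOn (fun Δ => if a ∈ Δ then Δ.erase a else insert a Δ) ?_ ?_
    · intro Δ hΔ
      simp only [coe_filter, mem_univ, true_and, Set.mem_ofPred_eq] at hΔ ⊢
      split_ifs with h
      · have := card_erase_add_one h
        omega
      · rw [card_insert_of_notMem h]
        omega
    · intro Δ _ Γ _ h
      simp only at h
      by_cases h3 : a ∈ Δ <;> by_cases h4 : a ∈ Γ <;> simp only [h3, h4, if_true, if_false] at h
      · rw [← insert_erase h3, h, insert_erase h4]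
      · have : a ∈ Δ.erase a := by rw [h]; exact mem_insert_self _ _
        simp at this
      · have : a ∈ Γ.erase a := by rw [← h]; exact mem_insert_self _ _
        simp at this
      · rw [← erase_insert h3, h, erase_insert h4]
  omega

theorem asym {G : Subgroup (Perm Ω)} [IsPretransitive G Ω] [Nonempty Ω] {B : Finset Ω}
    (hB : IsBase G B) {L : ℕ} (hL : 2 * B.card * L ≤ Fintype.card Ω)
    (hL2 : 4 * Fintype.card Ω ^ 2 ≤ 2 ^ L) :
    ∃ Δ : Finset Ω, 2 * Δ.card < Fintype.card Ω ∧
      ∀ g ∈ G, (∀ x, g x ∈ Δ ↔ x ∈ Δ) → g = 1 := by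
  classical
  have : Fintype G := Fintype.ofFinite G
  set Bad : Finset (Finset Ω) := ((univ : Finset G).erase 1).biUnion fun g =>
    (univ : Finset (Finset Ω)).filter fun Δ => ∀ x, (g : Perm Ω) x ∈ Δ ↔ x ∈ Δ with hBad
  set Half : Finset (Finset Ω) :=
    (univ : Finset (Finset Ω)).filter fun Δ => 2 * Δ.card = Fintype.card Ω with hHalf
  have h1 : (Bad.card : ℝ) ≤ 2 ^ Fintype.card Ω * (1 / 3) := by
    have h2 : (Bad.card : ℝ) ≤ ∑ g ∈ (univ : Finset G).erase 1,
        (((univ : Finset (Finset Ω)).filter fun Δ => ∀ x, (g : Perm Ω) x ∈ Δ ↔ x ∈ Δ).card : ℝ) := by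
      exact_mod_cast card_biUnion_le
    refine h2.trans ((sum_le_sum fun (g : G) _ => asym_fix (g : Perm Ω)).trans ?_)
    rw [← mul_sum]
    exact mul_le_mul_of_nonneg_left (asym_small hB hL hL2) (by positivity)
  have h3 : (2 : ℝ) * Half.card ≤ 2 ^ Fintype.card Ω := by exact_mod_cast asym_half (Ω := Ω)
  have h4 : (Bad ∪ Half).card < (univ : Finset (Finset Ω)).card := by
    rw [card_univ, Fintype.card_finset]
    have h5 : ((Bad ∪ Half).card : ℝ) ≤ Bad.card + Half.card := by
      exact_mod_cast card_union_le Bad Half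
    have h6 : (0 : ℝ) < 2 ^ Fintype.card Ω := by positivity
    have h7 : ((Bad ∪ Half).card : ℝ) < 2 ^ Fintype.card Ω := by linarith
    exact_mod_cast h7
  obtain ⟨Δ, -, hΔ⟩ := exists_mem_notMem_of_card_lt_card h4
  rw [mem_union, not_or] at hΔ
  have h8 : ∀ g ∈ G, (∀ x, g x ∈ Δ ↔ x ∈ Δ) → g = 1 := by
    intro g hg h
    by_contra hne
    apply hΔ.1
    rw [hBad, mem_biUnion]
    refine ⟨⟨g, hg⟩, mem_erase.2 ⟨fun h' => hne (congrArg Subtype.val h'), mem_univ _⟩, ?_⟩
    exact mem_filter.2 ⟨mem_univ _, h⟩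
  have h9 : 2 * Δ.card ≠ Fintype.card Ω := fun h => hΔ.2 (mem_filter.2 ⟨mem_univ _, h⟩)
  rcases lt_or_gt_of_ne h9 with h | h
  · exact ⟨Δ, h, h8⟩
  · refine ⟨Δᶜ, ?_, fun g hg hh => h8 g hg fun x => ?_⟩
    · have := card_add_card_compl Δ
      omega
    · have := hh x
      simp only [mem_compl] at this
      exact not_iff_not.1 this

end Pool.Agent.Lib.MP_5c8dfa_al.LS
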