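import Pool.Agent.Lib.MP_5c8dfa_al.LS.Two

/-! Induction on the degree of transitivity. -/

namespace Pool.Agent.Lib.MP_5c8dfa_al.LS

open Finset MulAction

theorem chain {j L k : ℕ} (hj0 : 0 < j) (t : ℕ) : ∀ (G Ω : Type) [Group G] [MulAction G Ω]
    [Fintype Ω] [DecidableEq Ω], IsMultiplyPretransitive G Ω 2 →
    ¬ IsMultiplyPretransitive G Ω (t + 3) → 4 * j + t ≤ Fintype.card Ω →
    Fintype.card Ω ^ 2 < 2 ^ L → Fintype.card Ω * L ≤ j * k →
    ∃ S : Finset Ω, IsBase G S ∧ S.card ≤ t + j * (4 * L) + k := by
  induction t with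
  | zero =>
    intro G Ω _ _ _ _ h2 h3 hj hL hk
    simpa using two h2 h3 hj0 hj hL hk
  | succ t ih =>
    intro G Ω _ _ _ _ h2 h3 hj hL hk
    by_cases h : IsMultiplyPretransitive G Ω 3
    · classical
      have := isPretransitive_of_is_two_pretransitive (G := G) (α := Ω)
      obtain ⟨a⟩ : Nonempty Ω := Fintype.card_pos_iff.1 (by omega)
      have hc : Fintype.card (SubMulAction.ofStabilizer G a) + 1 = Fintype.card Ω := by
        rw [← Nat.card_eq_fintype_card, ← Nat.card_eq_fintype_card]
        exact SubMulAction.nat_card_ofStabilizer_add_one_eq G a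
      obtain ⟨S, hS, hcard⟩ := ih (stabilizer G a) (SubMulAction.ofStabilizer G a)
        (SubMulAction.ofStabilizer.isMultiplyPretransitive.1 h)
        (fun h' => h3 (SubMulAction.ofStabilizer.isMultiplyPretransitive.2 h')) (by omega)
        (lt_of_le_of_lt (Nat.pow_le_pow_left (by omega) 2) hL)
        (le_trans (Nat.mul_le_mul_right _ (by omega)) hk)
      refine ⟨insert a (S.image Subtype.val), fun g hg x => ?_, ?_⟩
      · have ha : g • a = a := hg a (mem_insert_self _ _)
        by_cases hx : x = a
        · rw [hx, ha]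
        · have := hS ⟨g, ha⟩ (fun s hs => Subtype.ext
            (hg s (mem_insert_of_mem (mem_image_of_mem _ hs)))) ⟨x, hx⟩
          exact congrArg Subtype.val this
      · have h1 := card_insert_le a (S.image Subtype.val)
        have h4 := card_image_le (s := S) (f := Subtype.val)
        omega
    · obtain ⟨S, hS, hcard⟩ := two h2 h hj0 (by omega) hL hk
      exact ⟨S, hS, by omega⟩

end Pool.Agent.Lib.MP_5c8dfa_al.LS
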