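import Mathlib

/-! Definitions for the reduction to primitive groups and for bases. -/

namespace Pool.Agent.Lib.MP_5c8dfa_al.LS

open Finset MulAction

/-- An element that fixes every point of `S` fixes all points. -/
def IsBase (G : Type) {Ω : Type} [Group G] [MulAction G Ω] (S : Finset Ω) : Prop :=
  ∀ g : G, (∀ s ∈ S, g • s = s) → ∀ x : Ω, g • x = x

/-- Every invariant equivalence relation is trivial on `W`. -/
def PrimOn (G : Type) {Ω : Type} [Group G] [MulAction G Ω] (W : Finset Ω) : Prop :=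
  ∀ r : Ω → Ω → Prop, Equivalence r → (∀ (g : G) x y, r x y → r (g • x) (g • y)) →
    (∀ x ∈ W, ∀ y ∈ W, r x y → x = y) ∨ ∀ x ∈ W, ∀ y ∈ W, r x y

/-- `W` is invariant. -/
def Inv (G : Type) {Ω : Type} [Group G] [MulAction G Ω] (W : Finset Ω) : Prop :=
  ∀ g : G, ∀ x ∈ W, g • x ∈ W

/-- A subset of `W` with less than half of every invariant set, whose stabiliser is not mapped
onto `T`. -/
def Good {G Ω T : Type} [Group G] [MulAction G Ω] [DecidableEq Ω] [Group T] (W : Finset Ω)
    (φ : G →* T) : Prop :=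
  ∃ Δ ⊆ W, (∀ O ⊆ W, O.Nonempty → Inv G O → 2 * (Δ ∩ O).card < O.card) ∧
    ∃ t : T, ∀ g : G, (∀ x, g • x ∈ Δ ↔ x ∈ Δ) → φ g ≠ t

/-- The statement proved by induction on the number of points. -/
def Stmt (T : Type) [Group T] (n : ℕ) : Prop :=
  ∀ (Ω G : Type) [DecidableEq Ω] [Group G] [MulAction G Ω] (W : Finset Ω) (φ : G →* T),
    W.card ≤ n → Inv G W → (∀ g : G, (∀ x ∈ W, g • x = x) → φ g = 1) → Good W φ

open Classical in
/-- The points `z` such that no element of the stabiliser of `z` maps `x` to `y`. -/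
noncomputable def sep (G : Type) {Ω : Type} [Group G] [MulAction G Ω] [Fintype Ω] (x y : Ω) :
    Finset Ω :=
  univ.filter fun z => ¬ ∃ g : G, g • z = z ∧ g • x = y

end Pool.Agent.Lib.MP_5c8dfa_al.LS
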