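import Pool.Agent.Lib.MP_5c8dfa_al.LS.Mt

/-! A highly transitive group has an element with small support. -/

namespace Pool.Agent.Lib.MP_5c8dfa_al.LS

open Finset MulAction Equiv

variable {Ω : Type} [Fintype Ω] [DecidableEq Ω]

theorem DegA_primes {l n : ℕ} (h0 : 0 < l) (hn : l ≤ n) (P : Finset ℕ) (hP : ∀ q ∈ P, q.Prime) :
    (P.filter fun q => q ∣ l).card ≤ Nat.log 2 n := by
  refine Nat.le_log_of_pow_le one_lt_two (le_trans ?_ hn)
  have h1 : P.filter (fun q => q ∣ l) ⊆ l.primeFactors := fun q hq =>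
    Nat.mem_primeFactors.2 ⟨hP q (mem_filter.1 hq).1, (mem_filter.1 hq).2, h0.ne'⟩
  calc 2 ^ (P.filter fun q => q ∣ l).card ≤ 2 ^ l.primeFactors.card :=
        Nat.pow_le_pow_right two_pos (card_le_card h1)
    _ ≤ ∏ q ∈ l.primeFactors, q :=
        pow_card_le_prod _ _ _ fun q hq => (Nat.prime_of_mem_primeFactors hq).two_le
    _ ≤ l := Nat.le_of_dvd h0 (Nat.prod_primeFactors_dvd l)

/-- An element with small support. -/
theorem small_supp {G : Subgroup (Perm Ω)} {t Y : ℕ} (ht : IsMultiplyPretransitive G Ω t)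
    (hn : t ≤ Fintype.card Ω) (hY : Y * Y ≤ t)
    (h : Fintype.card Ω * Nat.log 2 (Fintype.card Ω) < Nat.primeCounting Y * t) :
    ∃ g ∈ G, g ≠ 1 ∧ g.support.card ≤ t := by
  classical
  obtain ⟨P, hPc, hP⟩ : ∃ P : Finset ℕ, P.card = Nat.primeCounting Y ∧ ∀ q ∈ P, q.Prime ∧ q ≤ Y ∧ 1 ≤ q :=
    ⟨(Y + 1).primesBelow, Nat.primesBelow_card_eq_primeCounting' _, fun q hq =>
      ⟨(Nat.mem_primesBelow.1 hq).2, Nat.lt_succ_iff.1 (Nat.mem_primesBelow.1 hq).1,
        (Nat.mem_primesBelow.1 hq).2.one_le⟩⟩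
  have : ∀ q : P, NeZero (q : ℕ) := fun q => ⟨(hP q q.2).1.ne_zero⟩
  have hPY : P.card ≤ Y := by
    have : P ⊆ Icc 1 Y := fun q hq => mem_Icc.2 ⟨(hP q hq).2.2, (hP q hq).2.1⟩
    simpa using card_le_card this
  have hι : Fintype.card (Σ q : P, ZMod q) ≤ t := by
    rw [Fintype.card_sigma]
    simp only [ZMod.card]
    calc ∑ q : P, (q : ℕ) ≤ (univ : Finset P).card • Y :=
          sum_le_card_nsmul _ _ _ fun q _ => (hP q q.2).2.1
      _ ≤ Y * Y := by
          simp only [card_univ, Fintype.card_coe, smul_eq_mul]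
          exact Nat.mul_le_mul_right _ hPY
      _ ≤ t := hY
  obtain ⟨e⟩ := Function.Embedding.nonempty_of_card_le (hι.trans hn)
  obtain ⟨g, hg, hge⟩ := mt ht hn hι e
    ((Equiv.sigmaCongrRight fun q : P => Equiv.addRight (1 : ZMod q)).toEmbedding.trans e)
  have hpow : ∀ (m : ℕ) (q : P) (a : ZMod q), (g ^ m) (e ⟨q, a⟩) = e ⟨q, a + m⟩ := by
    intro m q a
    induction m with
    | zero => simp
    | succ m ih =>
      rw [pow_succ', Perm.mul_apply, ih, hge, Nat.cast_succ, ← add_assoc]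
      rfl
  have l0 : ∀ x, 0 < Function.minimalPeriod g x := fun x =>
    Function.minimalPeriod_pos_of_mem_periodicPts (g.injective.mem_periodicPts x)
  have hsum : ∑ q ∈ P, (univ.filter fun x => q ∣ Function.minimalPeriod g x).card ≤
      Fintype.card Ω * Nat.log 2 (Fintype.card Ω) := by
    calc ∑ q ∈ P, (univ.filter fun x => q ∣ Function.minimalPeriod g x).card
        = ∑ x : Ω, (P.filter fun q => q ∣ Function.minimalPeriod g x).card := by
          simp only [card_filter]
          exact sum_comm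
      _ ≤ (univ : Finset Ω).card • Nat.log 2 (Fintype.card Ω) :=
          sum_le_card_nsmul _ _ _ fun x _ =>
            DegA_primes (l0 x) Function.minimalPeriod_le_card P fun q hq => (hP q hq).1
      _ = _ := by simp
  obtain ⟨q, hq, hqt⟩ : ∃ q ∈ P, (univ.filter fun x => q ∣ Function.minimalPeriod g x).card < t := by
    by_contra hc
    push Not at hc
    have := card_nsmul_le_sum P _ t hc
    rw [smul_eq_mul, hPc] at this
    omega
  have hf : (Fintype.card Ω).factorial ≠ 0 := Nat.factorial_ne_zero _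
  refine ⟨g ^ (ordCompl[q] (Fintype.card Ω).factorial), pow_mem hg _, fun h1 => ?_,
    le_trans (card_le_card fun x hx => ?_) hqt.le⟩
  · have := hpow (ordCompl[q] (Fintype.card Ω).factorial) ⟨q, hq⟩ 0
    rw [h1, Perm.one_apply, zero_add] at this
    have h2 := e.injective this
    have h3 : ((ordCompl[q] (Fintype.card Ω).factorial : ℕ) : ZMod q) = 0 :=
      (eq_of_heq (Sigma.mk.inj h2).2).symm
    exact Nat.not_dvd_ordCompl (hP q hq).1 hf ((ZMod.natCast_eq_zero_iff _ _).1 h3)
  · refine mem_filter.2 ⟨mem_univ _, ?_⟩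
    by_contra hd
    have h2 := Nat.dvd_ordCompl_of_dvd_not_dvd
      (Nat.dvd_factorial (l0 x) (Function.minimalPeriod_le_card (f := g) (x := x))) hd
    have h3 := Function.isPeriodicPt_iff_minimalPeriod_dvd.2 h2
    exact Perm.mem_support.1 hx (by rw [Perm.coe_pow]; exact h3)

end Pool.Agent.Lib.MP_5c8dfa_al.LS
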