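import Pool.Agent.Lib.MP_5c8dfa_al.LS.Mt

/-! A highly transitive group with an element of small support contains the alternating group. -/

namespace Pool.Agent.Lib.MP_5c8dfa_al.LS

open Finset MulAction Equiv

variable {Ω : Type} [Fintype Ω] [DecidableEq Ω]

theorem degB_comm {g h : Perm Ω} {α : Ω} (hα : ∀ x, g x ≠ x → h x ≠ x → x = α) :
    (g * h * g⁻¹ * h⁻¹).support ⊆ {α, g α, h α} := by
  intro x hx
  by_contra hn
  simp only [mem_insert, mem_singleton, not_or] at hn
  obtain ⟨n1, n2, n3⟩ := hn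
  refine Perm.mem_support.1 hx ?_
  simp only [Perm.mul_apply]
  by_cases h1 : h x = x
  · have e1 : h⁻¹ x = x := Perm.inv_eq_iff_eq.2 h1.symm
    rw [e1]
    obtain ⟨y, rfl⟩ := g.surjective x
    have e2 : g⁻¹ (g y) = y := by simp
    rw [e2]
    by_cases h2 : g y = y
    · rw [h2] at h1
      rw [h1]
    · by_contra h3
      exact n2 (congrArg g (hα y h2 fun e => h3 (congrArg g e)))
  · obtain ⟨y, rfl⟩ := h.surjective x
    have e1 : h⁻¹ (h y) = y := by simp
    have e2 : g y = y := by
      by_contra h3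
      exact n3 (congrArg h (hα y h3 fun e => h1 (congrArg h e)))
    have e3 : g⁻¹ y = y := Perm.inv_eq_iff_eq.2 e2.symm
    rw [e1, e3]
    by_contra h3
    exact n1 (hα _ h3 h1)

theorem alt_of_small {G : Subgroup (Perm Ω)} {t : ℕ} (ht : IsMultiplyPretransitive G Ω t)
    (hn : 2 * t ≤ Fintype.card Ω) {g : Perm Ω} (hg : g ∈ G) (h1 : g ≠ 1)
    (hs : g.support.card ≤ t) : alternatingGroup Ω ≤ G := by
  have h2 := Perm.two_le_card_support_of_ne_one h1
  have hp : IsPreprimitive G Ω := isPreprimitive_of_is_two_pretransitive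
    (isMultiplyPretransitive_of_le (n := t) (by omega) (by rw [Nat.card_eq_fintype_card]; omega))
  obtain ⟨α, hα⟩ : g.support.Nonempty := card_pos.1 (by omega)
  obtain ⟨f⟩ : Nonempty (g.support ↪ (g.supportᶜ : Finset Ω)) := by
    refine Function.Embedding.nonempty_of_card_le ?_
    rw [Fintype.card_coe, Fintype.card_coe, card_compl]
    omega
  have hf : ∀ x, (f x : Ω) ∉ g.support := fun x => mem_compl.1 (f x).2
  have hinj : Function.Injective fun x : g.support => if (x : Ω) = α then α else (f x : Ω) := by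
    intro x y e
    by_cases hx : (x : Ω) = α <;> by_cases hy : (y : Ω) = α <;> simp only [hx, hy, if_true,
      if_false] at e
    · exact Subtype.ext (hx.trans hy.symm)
    · exact absurd (e ▸ hα) (hf y)
    · exact absurd (e ▸ hα) (hf x)
    · exact f.injective (Subtype.ext e)
  obtain ⟨u, hu, e⟩ := mt ht (by omega) (ι := g.support) (by rwa [Fintype.card_coe])
    (Function.Embedding.subtype _) ⟨_, hinj⟩
  have e' : ∀ x (hx : x ∈ g.support), u x = if x = α then α else (f ⟨x, hx⟩ : Ω) :=
    fun x hx => e ⟨x, hx⟩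
  have uα : u α = α := by rw [e' α hα, if_pos rfl]
  have gα : g α ≠ α := Perm.mem_support.1 hα
  set h := u * g * u⁻¹ with hh
  have a1 : ∀ x, g x ≠ x → h x ≠ x → x = α := fun x b1 b2 => by
    obtain ⟨y, rfl⟩ := u.surjective x
    have b3 : y ∈ g.support := Perm.mem_support.2 fun b => b2 (by simp [hh, b])
    have b4 := e' y b3
    split_ifs at b4
    · exact b4
    · exact absurd (Perm.mem_support.2 b1) (b4 ▸ hf _)
  have a2 : h α ≠ α := fun b => by
    have b1 : u⁻¹ α = α := Perm.inv_eq_iff_eq.2 uα.symm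
    rw [hh, Perm.mul_apply, Perm.mul_apply, b1] at b
    exact gα (u.injective (b.trans uα.symm))
  have hG : h ∈ G := G.mul_mem (G.mul_mem hu hg) (G.inv_mem hu)
  have cG : g * h * g⁻¹ * h⁻¹ ∈ G :=
    G.mul_mem (G.mul_mem (G.mul_mem hg hG) (G.inv_mem hg)) (G.inv_mem hG)
  have c1 : g * h * g⁻¹ * h⁻¹ ≠ 1 := fun b => by
    have b1 : g * h = h * g := by rwa [mul_inv_eq_one, mul_inv_eq_iff_eq_mul] at b
    have b2 : g (h α) = h (g α) := by rw [← Perm.mul_apply, b1, Perm.mul_apply]
    have b3 : h (g α) = g α := by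
      by_contra b4
      exact gα (a1 _ (fun b5 => gα (g.injective b5)) b4)
    exact a2 (g.injective (b2.trans b3))
  have c2 := Perm.two_le_card_support_of_ne_one c1
  have c3 := (card_le_card (degB_comm a1)).trans card_le_three
  rcases c2.eq_or_lt with c4 | c4
  · rw [Perm.subgroup_eq_top_of_isPreprimitive_of_isSwap_mem hp _
      (Perm.card_support_eq_two.1 c4.symm) cG]
    exact le_top
  · exact Perm.alternatingGroup_le_of_isPreprimitive_of_isThreeCycle_mem hp
      (card_support_eq_three_iff.1 (by omega)) cG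

end Pool.Agent.Lib.MP_5c8dfa_al.LS
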