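import Pool.Agent.Lib.MP_5c8dfa_al.LS.Defs

/-! The number of invariant subsets. -/

namespace Pool.Agent.Lib.MP_5c8dfa_al.LS

open Finset MulAction Equiv

variable {Ω : Type} [Fintype Ω] [DecidableEq Ω]

omit [DecidableEq Ω] in
theorem fix_cyc {g : Perm Ω} {Δ : Finset Ω} (h : ∀ x, g x ∈ Δ ↔ x ∈ Δ) {x y : Ω}
    (hc : g.SameCycle x y) : x ∈ Δ ↔ y ∈ Δ := by
  obtain ⟨n, -, rfl⟩ := hc.exists_pow_eq'
  clear hc
  induction n with
  | zero => rfl
  | succ n ih => rw [pow_succ', Perm.mul_apply, h, ih]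

/-- The number of subsets kept by a permutation. -/
theorem fix_card (g : Perm Ω) :
    ((univ : Finset (Finset Ω)).filter fun Δ => ∀ x, g x ∈ Δ ↔ x ∈ Δ).card ^ 2 *
      2 ^ g.support.card ≤ 4 ^ Fintype.card Ω := by
  obtain ⟨R, hR⟩ : ∃ R : Finset Ω, ∀ x, x ∈ R ↔
      ∀ y, g.SameCycle x y → Fintype.equivFin Ω x ≤ Fintype.equivFin Ω y :=
    ⟨univ.filter fun x => ∀ y, g.SameCycle x y → Fintype.equivFin Ω x ≤ Fintype.equivFin Ω y,
      fun x => by simp⟩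
  have h1 : ∀ x, ∃ r ∈ R, g.SameCycle r x := fun x => by
    obtain ⟨r, hr, hm⟩ := exists_min_image (univ.filter fun y => g.SameCycle y x)
      (Fintype.equivFin Ω) ⟨x, mem_filter.2 ⟨mem_univ _, Perm.SameCycle.refl _ _⟩⟩
    exact ⟨r, (hR r).2 fun y hy => hm y (mem_filter.2 ⟨mem_univ _,
      hy.symm.trans (mem_filter.1 hr).2⟩), (mem_filter.1 hr).2⟩
  have h2 : ((univ : Finset (Finset Ω)).filter fun Δ => ∀ x, g x ∈ Δ ↔ x ∈ Δ).card ≤
      2 ^ R.card := by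
    rw [← card_powerset]
    refine card_le_card_of_injOn (· ∩ R) (fun Δ _ => mem_coe.2 (mem_powerset.2 inter_subset_right))
      fun Δ hΔ Δ' hΔ' e => ?_
    ext x
    obtain ⟨r, r1, r2⟩ := h1 x
    have e1 : r ∈ Δ ∩ R ↔ r ∈ Δ' ∩ R := by rw [show Δ ∩ R = Δ' ∩ R from e]
    rw [← fix_cyc (mem_filter.1 hΔ).2 r2, ← fix_cyc (mem_filter.1 hΔ').2 r2]
    simpa [r1] using e1
  have h3 : (g.support ∩ R).card ≤ Rᶜ.card := by
    refine card_le_card_of_injOn g (fun x hx => mem_coe.2 (mem_compl.2 fun h => ?_))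
      g.injective.injOn
    obtain ⟨x1, x2⟩ := mem_inter.1 (mem_coe.1 hx)
    have c : g.SameCycle x (g x) := Perm.sameCycle_apply_right.2 (Perm.SameCycle.refl _ _)
    exact Perm.mem_support.1 x1 ((Fintype.equivFin Ω).injective
      (le_antisymm ((hR _).1 h x c.symm) ((hR _).1 x2 _ c)))
  have h4 : (g.support \ R).card ≤ Rᶜ.card :=
    card_le_card fun x hx => mem_compl.2 (mem_sdiff.1 hx).2
  have h5 := card_sdiff_add_card_inter g.support R
  have h6 := card_add_card_compl R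
  calc _ ≤ (2 ^ R.card) ^ 2 * 2 ^ (2 * Rᶜ.card) :=
        Nat.mul_le_mul (Nat.pow_le_pow_left h2 2) (Nat.pow_le_pow_right two_pos (by omega))
    _ = _ := by
      rw [← pow_mul, ← pow_add, ← h6, show 4 = 2 ^ 2 from rfl, ← pow_mul]
      congr 1
      ring

end Pool.Agent.Lib.MP_5c8dfa_al.LS
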