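import Pool.Agent.Lib.MP_5c8dfa_al.LS.Defs

/-! Greedy hitting sets. -/

namespace Pool.Agent.Lib.MP_5c8dfa_al.LS

open Finset

theorem hit_step {U I : Type} [Fintype U] [DecidableEq U] [Nonempty U] (B : Finset I)
    (F : I → Finset U) {D : ℕ} (hD : ∀ i ∈ B, D ≤ (F i).card) :
    ∃ x : U, ((B.filter fun i => x ∉ F i).card : ℝ) ≤
      B.card * (1 - (D : ℝ) / Fintype.card U) := by
  have h1 : ∑ x : U, (B.filter fun i => x ∈ F i).card = ∑ i ∈ B, (F i).card := by
    simp only [card_filter]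
    rw [sum_comm]
    refine sum_congr rfl fun i _ => ?_
    simp
  have h2 : ∑ _x : U, B.card * D ≤
      ∑ x : U, Fintype.card U * (B.filter fun i => x ∈ F i).card := by
    rw [sum_const, ← mul_sum, h1, card_univ, smul_eq_mul]
    refine Nat.mul_le_mul_left _ ?_
    simpa using card_nsmul_le_sum B (fun i => (F i).card) D hD
  obtain ⟨x, -, hx⟩ := exists_le_of_sum_le univ_nonempty h2
  refine ⟨x, ?_⟩
  have h3 := card_filter_add_card_filter_not (s := B) fun i => x ∈ F i
  have hU : (0 : ℝ) < Fintype.card U := by exact_mod_cast Fintype.card_pos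
  have h4 : (B.card : ℝ) * D ≤ Fintype.card U * (B.filter fun i => x ∈ F i).card := by
    exact_mod_cast hx
  have h5 : ((B.filter fun i => x ∈ F i).card : ℝ) + (B.filter fun i => x ∉ F i).card = B.card := by
    exact_mod_cast h3
  have h6 : (B.card : ℝ) * (D / Fintype.card U) ≤ (B.filter fun i => x ∈ F i).card := by
    rw [← mul_div_assoc, div_le_iff₀ hU]
    linarith
  linarith

theorem hit_iter {U I : Type} [Fintype U] [DecidableEq U] [Nonempty U] (A : Finset I)
    (F : I → Finset U) {D : ℕ} (hD : ∀ i ∈ A, D ≤ (F i).card)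
    (h0 : 0 ≤ 1 - (D : ℝ) / Fintype.card U) (k : ℕ) :
    ∃ S : Finset U, S.card ≤ k ∧ ((A.filter fun i => ∀ x ∈ S, x ∉ F i).card : ℝ) ≤
      A.card * (1 - (D : ℝ) / Fintype.card U) ^ k := by
  induction k with
  | zero => exact ⟨∅, le_rfl, by simp⟩
  | succ k ih =>
    obtain ⟨S, h1, h2⟩ := ih
    obtain ⟨x, hx⟩ := hit_step (A.filter fun i => ∀ x ∈ S, x ∉ F i) F
      fun i hi => hD i (mem_filter.1 hi).1
    refine ⟨insert x S, (card_insert_le _ _).trans (by omega), ?_⟩
    have h3 : (A.filter fun i => ∀ y ∈ insert x S, y ∉ F i) =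
        (A.filter fun i => ∀ x ∈ S, x ∉ F i).filter fun i => x ∉ F i := by
      ext i
      simp only [mem_filter, forall_mem_insert]
      tauto
    rw [h3, pow_succ, ← mul_assoc]
    exact hx.trans (mul_le_mul_of_nonneg_right h2 h0)

theorem hit {U I : Type} [Fintype U] [DecidableEq U] (A : Finset I) (F : I → Finset U)
    {D L k : ℕ} (hD0 : 0 < D) (hD : ∀ i ∈ A, D ≤ (F i).card) (hL : A.card < 2 ^ L)
    (hk : Fintype.card U * L ≤ D * k) :
    ∃ S : Finset U, S.card ≤ k ∧ ∀ i ∈ A, ∃ x ∈ S, x ∈ F i := by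
  rcases A.eq_empty_or_nonempty with rfl | ⟨i0, hi0⟩
  · exact ⟨∅, Nat.zero_le _, by simp⟩
  have h1 : D ≤ Fintype.card U := (hD i0 hi0).trans (card_le_univ _)
  have hU0 : 0 < Fintype.card U := hD0.trans_le h1
  have : Nonempty U := Fintype.card_pos_iff.1 hU0
  have hU : (0 : ℝ) < Fintype.card U := by exact_mod_cast hU0
  have h0 : 0 ≤ 1 - (D : ℝ) / Fintype.card U := by
    rw [sub_nonneg, div_le_one hU]
    exact_mod_cast h1
  obtain ⟨S, h2, h3⟩ := hit_iter A F hD h0 k
  refine ⟨S, h2, fun i hi => ?_⟩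
  have h4 : (1 - (D : ℝ) / Fintype.card U) ^ k ≤ Real.exp (-((D : ℝ) / Fintype.card U)) ^ k :=
    pow_le_pow_left₀ h0 (by linarith [Real.add_one_le_exp (-((D : ℝ) / Fintype.card U))]) k
  have h5 : Real.exp (-((D : ℝ) / Fintype.card U)) ^ k ≤ Real.exp (-1) ^ L := by
    rw [← Real.exp_nat_mul, ← Real.exp_nat_mul, Real.exp_le_exp]
    have h : (L : ℝ) ≤ k * (D / Fintype.card U) := by
      rw [← mul_div_assoc, le_div_iff₀ hU]
      have : (Fintype.card U : ℝ) * L ≤ D * k := by exact_mod_cast hk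
      linarith
    linarith
  have h6 : Real.exp (-1) ^ L * 2 ^ L ≤ 1 := by
    rw [← mul_pow]
    refine pow_le_one₀ (by positivity) ?_
    have h := Real.add_one_le_exp (1 : ℝ)
    have h' : Real.exp (-1) * Real.exp 1 = 1 := by rw [← Real.exp_add]; simp
    nlinarith [Real.exp_pos (-1)]
  have h7 : (A.card : ℝ) < 2 ^ L := by exact_mod_cast hL
  have h8 : (0 : ℝ) < Real.exp (-1) ^ L := by positivity
  have h9 : ((A.filter fun i => ∀ x ∈ S, x ∉ F i).card : ℝ) < 1 := by
    refine (h3.trans (mul_le_mul_of_nonneg_left (h4.trans h5) (Nat.cast_nonneg _))).trans_lt ?_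
    nlinarith
  have h10 : (A.filter fun i => ∀ x ∈ S, x ∉ F i) = ∅ := by
    rw [← card_eq_zero]
    have : (A.filter fun i => ∀ x ∈ S, x ∉ F i).card < 1 := by exact_mod_cast h9
    omega
  by_contra hc
  have : i ∈ A.filter fun i => ∀ x ∈ S, x ∉ F i :=
    mem_filter.2 ⟨hi, fun x hx hx' => hc ⟨x, hx, hx'⟩⟩
  rw [h10] at this
  exact notMem_empty _ this

end Pool.Agent.Lib.MP_5c8dfa_al.LS
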