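import Pool.Agent.Lib.MP_5c8dfa_al.LS.Defs

/-! The choice of the parameters. -/

namespace Pool.Agent.Lib.MP_5c8dfa_al.LS

theorem Num_pow (m : ℕ) (hm : 24 ≤ m) : 2400 * m ^ 2 ≤ 2 ^ m := by
  induction m, hm using Nat.le_induction with
  | base => norm_num
  | succ k hk ih =>
    have h : (k + 1) ^ 2 ≤ 2 * k ^ 2 := by nlinarith
    rw [pow_succ 2 k]
    omega

theorem Num_pi (m : ℕ) (hm : 1 ≤ m) (h : 6 * m + 1 ≤ 2 ^ m) :
    (2 ^ m) ^ 2 ≤ Nat.primeCounting ((2 ^ m) ^ 3) := by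
  have hp := Chebyshev.pi_ge ((2 ^ m) ^ 3)
  have hl : 0 < Real.log 2 := Real.log_pos (by norm_num)
  have hm' : (1 : ℝ) ≤ m := by exact_mod_cast hm
  have h' : (6 : ℝ) * m + 1 ≤ 2 ^ m := by exact_mod_cast h
  have e1 : Real.log (((2 ^ m) ^ 3 : ℕ) : ℝ) = 3 * m * Real.log 2 := by
    push_cast
    rw [Real.log_pow, Real.log_pow]
    push_cast
    ring
  have e2 : Real.log ((((2 ^ m) ^ 3 : ℕ) : ℝ) + 1) ≤ (3 * m + 1) * Real.log 2 := by
    have h1 : (1 : ℝ) ≤ (((2 ^ m) ^ 3 : ℕ) : ℝ) := by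
      exact_mod_cast Nat.one_le_iff_ne_zero.2 (by positivity)
    have h2 : Real.log ((((2 ^ m) ^ 3 : ℕ) : ℝ) + 1) ≤
        Real.log (2 * (((2 ^ m) ^ 3 : ℕ) : ℝ)) :=
      Real.log_le_log (by linarith) (by linarith)
    rw [Real.log_mul (by norm_num) (by linarith), e1] at h2
    linarith
  rw [e1, div_le_iff₀ (by positivity)] at hp
  push_cast at hp e2
  set A : ℝ := 2 ^ m with hA
  have hA1 : 1 ≤ A := by linarith
  have h3 : A ^ 2 * (3 * m) + (3 * m + 1) ≤ A ^ 3 := by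
    have h4 : 1 ≤ A ^ 2 := one_le_pow₀ hA1
    have h5 : A ^ 2 * (6 * m + 1) ≤ A ^ 2 * A := by gcongr
    have h6 : 1 * (3 * (m : ℝ) + 1) ≤ A ^ 2 * (3 * m + 1) := by gcongr
    nlinarith
  have h7 : A ^ 2 * (3 * m * Real.log 2) ≤
      (Nat.primeCounting ((2 ^ m) ^ 3) : ℝ) * (3 * m * Real.log 2) := by
    have h8 : (A ^ 2 * (3 * m) + (3 * m + 1)) * Real.log 2 ≤ A ^ 3 * Real.log 2 := by gcongr
    nlinarith
  have h9 : A ^ 2 ≤ (Nat.primeCounting ((2 ^ m) ^ 3) : ℝ) :=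
    le_of_mul_le_mul_right h7 (by positivity)
  rw [hA] at h9
  exact_mod_cast h9

theorem num : ∃ n0 : ℕ, ∀ n, n0 ≤ n → ∃ a L k t Y : ℕ, 0 < a ∧ 18 * a ^ 4 ≤ n ∧
    4 * n ^ 2 ≤ 2 ^ L ∧ n * L ≤ a * k ∧ 4 * a + t ≤ n ∧ 2 * (t + 3) ≤ n ∧ Y * Y ≤ t + 3 ∧
    n * Nat.log 2 n < Nat.primeCounting Y * (t + 3) ∧ 2 * (t + a * (4 * L) + k) * L ≤ n := by
  refine ⟨2 ^ 192, fun n hn => ?_⟩
  have hn0 : n ≠ 0 := by
    have : 0 < 2 ^ 192 := by positivity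
    omega
  have hl : 192 ≤ Nat.log 2 n := Nat.le_log_of_pow_le (by norm_num) hn
  have h1 : 2 ^ Nat.log 2 n ≤ n := Nat.pow_log_le_self 2 hn0
  have h2 : n < 2 ^ (Nat.log 2 n + 1) := Nat.lt_pow_succ_log_self (by norm_num) n
  generalize Nat.log 2 n = l at hl h1 h2 ⊢
  obtain ⟨m, hm1, hm2⟩ : ∃ m, 8 * m ≤ l ∧ l < 8 * m + 8 := ⟨l / 8, by omega, by omega⟩
  have hm : 24 ≤ m := by omega
  have hp := Num_pow m hm
  have hpi := Num_pi m (by omega) (by nlinarith)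
  have h8 : (2 ^ m) ^ 8 ≤ n := by
    rw [← pow_mul]
    exact le_trans (Nat.pow_le_pow_right (by norm_num) (by omega)) h1
  have hL : 4 * n ^ 2 ≤ 2 ^ (2 * l + 4) := by
    have : n ^ 2 ≤ (2 ^ (l + 1)) ^ 2 := by gcongr
    calc 4 * n ^ 2 ≤ 4 * (2 ^ (l + 1)) ^ 2 := by gcongr
      _ = 2 ^ (2 * l + 4) := by ring
  have hLa : 8 * (2 * l + 4) ^ 2 ≤ 2 ^ m := by
    have : (2 * l + 4) ^ 2 ≤ (17 * m) ^ 2 := by gcongr; omega
    nlinarith
  have hlL : l ≤ 2 * l + 4 := by omega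
  have hL1 : 1 ≤ 2 * l + 4 := by omega
  generalize 2 * l + 4 = L at hL hLa hlL hL1
  have ha : 18 ≤ 2 ^ m := by nlinarith
  generalize 2 ^ m = a at hpi h8 hLa ha
  have ha0 : 0 < a := by omega
  have hq : a ^ 7 ≤ n / a := by
    rw [Nat.le_div_iff_mul_le ha0]
    calc a ^ 7 * a = a ^ 8 := by ring
      _ ≤ n := h8
  have hq1 : a * (n / a) ≤ n := Nat.mul_div_le n a
  have hq2 : n < a * (n / a) + a := by
    have := Nat.div_add_mod n a
    have := Nat.mod_lt n ha0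
    omega
  have hk1 : n * L ≤ a * (n * L / a + 1) := by
    have := Nat.div_add_mod (n * L) a
    have := Nat.mod_lt (n * L) ha0
    rw [mul_add]
    omega
  have hk2 : a * (n * L / a) ≤ n * L := Nat.mul_div_le _ a
  generalize n * L / a = k at hk1 hk2
  generalize n / a = q at hq hq1 hq2
  have p1 : a ≤ a ^ 7 := Nat.le_self_pow (by norm_num) a
  have p6 : a ^ 6 ≤ a ^ 7 := Nat.pow_le_pow_right ha0 (by norm_num)
  have p4 : a ^ 4 ≤ a ^ 7 := Nat.pow_le_pow_right ha0 (by norm_num)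
  have p2 : a ^ 2 ≤ a ^ 7 := Nat.pow_le_pow_right ha0 (by norm_num)
  have hq18 : 18 * q ≤ n := le_trans (by gcongr) hq1
  obtain ⟨t, rfl⟩ : ∃ t, q = t + 3 := ⟨q - 3, by omega⟩
  have hLL : L ≤ L ^ 2 := Nat.le_self_pow (by norm_num) L
  refine ⟨a, L, k + 1, t, a ^ 3, ha0, by omega, hL, hk1, by omega, by omega, ?_, ?_, ?_⟩
  · calc a ^ 3 * a ^ 3 = a ^ 6 := by ring
      _ ≤ t + 3 := by omega
  · have e1 : n ≤ 2 * (a * (t + 3)) := by
      have : a * 1 ≤ a * (t + 3) := by gcongr; omega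
      omega
    have e2 : 2 * l < a := by omega
    have e3 : 0 < a * (t + 3) := by positivity
    calc n * l ≤ 2 * (a * (t + 3)) * l := by gcongr
      _ = (2 * l) * (a * (t + 3)) := by ring
      _ < a * (a * (t + 3)) := by gcongr
      _ = a ^ 2 * (t + 3) := by ring
      _ ≤ _ := by gcongr
  · refine Nat.le_of_mul_le_mul_left ?_ ha0
    have e1 : a * t ≤ n := le_trans (by gcongr; omega) hq1
    have e2 : n * (8 * L ^ 2) ≤ n * a := by gcongr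
    have e3 : n * L ≤ n * L ^ 2 := by gcongr
    have e4 : a ^ 2 * (8 * L ^ 2) ≤ a ^ 2 * a := by gcongr
    have e5 : a * (2 * L) ≤ a * a := by gcongr; omega
    have e6 : a * (2 * a ^ 2 + 2 * a) ≤ a * n := by gcongr; omega
    have e7 : a * t * L ≤ n * L := by gcongr
    have e8 : a * k * L ≤ n * L * L := by gcongr
    nlinarith

end Pool.Agent.Lib.MP_5c8dfa_al.LS
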