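import Pool.Agent.Lib.MP_5c8dfa_al.LS.Defs

/-! Reduction to primitive actions. -/

namespace Pool.Agent.Lib.MP_5c8dfa_al.LS

open Finset MulAction

/-- The elements that fix every point of `V`. -/
def redKer (G : Type) {Ω : Type} [Group G] [MulAction G Ω] (V : Finset Ω) : Subgroup G where
  carrier := {g | ∀ x ∈ V, g • x = x}
  one_mem' := fun x _ => one_smul G x
  mul_mem' := fun {a b} ha hb x hx => by rw [mul_smul, hb x hx, ha x hx]
  inv_mem' := fun {a} ha x hx => by rw [inv_smul_eq_iff, ha x hx]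

/-- The elements that keep `Δ`. -/
def redStb (G : Type) {Ω : Type} [Group G] [MulAction G Ω] (Δ : Finset Ω) : Subgroup G where
  carrier := {g | ∀ x, g • x ∈ Δ ↔ x ∈ Δ}
  one_mem' := fun x => by rw [one_smul]
  mul_mem' := fun {a b} ha hb x => by rw [mul_smul, ha, hb]
  inv_mem' := fun {a} ha x => by rw [← ha (a⁻¹ • x), smul_inv_smul]

variable {T : Type} [Group T] [IsSimpleGroup T] {n : ℕ}
  {Ω G : Type} [DecidableEq Ω] [Group G] [MulAction G Ω] {W : Finset Ω} {φ : G →* T}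

omit [DecidableEq Ω] in
theorem red_inv_iff {V : Finset Ω} (h : Inv G V) (g : G) (x : Ω) : g • x ∈ V ↔ x ∈ V :=
  ⟨fun hx => by simpa using h g⁻¹ _ hx, h g x⟩

omit [DecidableEq Ω] in
theorem red_ker_conj {V : Finset Ω} (h : Inv G V) (g k : G) (hk : k ∈ redKer G V) :
    g * k * g⁻¹ ∈ redKer G V := fun x hx => by
  rw [mul_smul, mul_smul, hk _ (h g⁻¹ x hx), smul_inv_smul]

theorem red_dich (φ : G →* T) (K L : Subgroup G) (hK : ∀ g k : G, k ∈ K → g * k * g⁻¹ ∈ K)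
    {t : T} (h : ∀ g ∈ K, g ∈ L → φ g ≠ t) :
    (∃ s : T, ∀ g ∈ L, φ g ≠ s) ∨ ∀ g ∈ K, g ∈ L → φ g = 1 := by
  by_cases hs : ∃ s : T, ∀ g ∈ L, φ g ≠ s
  · exact Or.inl hs
  right
  push Not at hs
  have hN : ((K ⊓ L).map φ).Normal := ⟨by
    rintro _ ⟨k, ⟨hk1, hk2⟩, rfl⟩ s
    obtain ⟨g, hg, rfl⟩ := hs s
    exact ⟨g * k * g⁻¹, ⟨hK g k hk1, L.mul_mem (L.mul_mem hg hk2) (L.inv_mem hg)⟩, by simp⟩⟩
  rcases hN.eq_bot_or_eq_top with h0 | h0
  · intro g h1 h2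
    have : φ g ∈ (K ⊓ L).map φ := ⟨g, ⟨h1, h2⟩, rfl⟩
    rwa [h0, Subgroup.mem_bot] at this
  · have : t ∈ (K ⊓ L).map φ := h0 ▸ Subgroup.mem_top t
    obtain ⟨g, ⟨h1, h2⟩, h3⟩ := this
    exact absurd h3 (h g h1 h2)

theorem red_union {V Δ₁ Δ₂ : Finset Ω} (h3 : Inv G V)
    (s1 : Δ₁ ⊆ V) (s2 : Δ₂ ⊆ W \ V)
    (a1 : ∀ O ⊆ V, O.Nonempty → Inv G O → 2 * (Δ₁ ∩ O).card < O.card)
    (a2 : ∀ O ⊆ W \ V, O.Nonempty → Inv G O → 2 * (Δ₂ ∩ O).card < O.card) :
    ∀ O ⊆ W, O.Nonempty → Inv G O → 2 * ((Δ₁ ∪ Δ₂) ∩ O).card < O.card := by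
  intro O hO hne hinv
  have i1 : Inv G (O ∩ V) := fun g x hx => by
    rw [mem_inter] at hx ⊢
    exact ⟨hinv g x hx.1, h3 g x hx.2⟩
  have i2 : Inv G (O \ V) := fun g x hx => by
    rw [mem_sdiff] at hx ⊢
    exact ⟨hinv g x hx.1, fun h => hx.2 ((red_inv_iff h3 g x).1 h)⟩
  have e : ((Δ₁ ∪ Δ₂) ∩ O).card ≤ (Δ₁ ∩ (O ∩ V)).card + (Δ₂ ∩ (O \ V)).card := by
    refine le_trans (card_le_card ?_) (card_union_le _ _)
    intro x hx
    simp only [mem_inter, mem_union, mem_sdiff] at hx ⊢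
    rcases hx with ⟨h | h, h'⟩
    · exact Or.inl ⟨h, h', s1 h⟩
    · exact Or.inr ⟨h, h', (mem_sdiff.1 (s2 h)).2⟩
  have e2 : (O \ V).card + (O ∩ V).card = O.card := card_sdiff_add_card_inter O V
  have hpos : 0 < O.card := hne.card_pos
  have b1 := a1 (O ∩ V) inter_subset_right
  have b2 := a2 (O \ V) (sdiff_subset_sdiff hO Subset.rfl)
  have c1 : (Δ₁ ∩ (O ∩ V)).card ≤ (O ∩ V).card := card_le_card inter_subset_right
  have c2 : (Δ₂ ∩ (O \ V)).card ≤ (O \ V).card := card_le_card inter_subset_right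
  rw [← card_pos] at b1 b2
  by_cases p1 : 0 < (O ∩ V).card <;> by_cases p2 : 0 < (O \ V).card
  · have := b1 p1 i1
    have := b2 p2 i2
    omega
  · have := b1 p1 i1
    omega
  · have := b2 p2 i2
    omega
  · omega

theorem intr (ih : ∀ m < n, Stmt T m) (hn : W.card ≤ n) (hW : Inv G W)
    (hφ : ∀ g : G, (∀ x ∈ W, g • x = x) → φ g = 1) {V : Finset Ω} (hV : V ⊆ W) (h1 : V.Nonempty)
    (h2 : V ≠ W) (h3 : Inv G V) : Good W φ := by
  have hlt : V.card < W.card := card_lt_card (Finset.ssubset_iff_subset_ne.2 ⟨hV, h2⟩)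
  have hlt2 : (W \ V).card < W.card := by
    have := card_sdiff_add_card_eq_card hV
    have := h1.card_pos
    omega
  have hU : Inv G (W \ V) := fun g x hx => by
    rw [mem_sdiff] at hx ⊢
    exact ⟨hW g x hx.1, fun h => hx.2 ((red_inv_iff h3 g x).1 h)⟩
  obtain ⟨Δ₂, s2, a2, t2, b2⟩ := ih _ (lt_of_lt_of_le hlt2 hn) Ω (redKer G V) (W \ V)
    (φ.comp (redKer G V).subtype) le_rfl (fun g x hx => hU g x hx) (fun g hg => hφ g fun x hx => by
      by_cases h : x ∈ V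
      · exact g.2 x h
      · exact hg x (mem_sdiff.2 ⟨hx, h⟩))
  have a2' : ∀ O ⊆ W \ V, O.Nonempty → Inv G O → 2 * (Δ₂ ∩ O).card < O.card :=
    fun O h h' hi => a2 O h h' fun g x hx => hi g x hx
  have sW : Δ₂ ⊆ W := s2.trans sdiff_subset
  rcases red_dich φ (redKer G V) (redStb G Δ₂) (red_ker_conj h3) (t := t2)
    (fun g hk hl => b2 ⟨g, hk⟩ hl) with ⟨s, hs⟩ | h0
  · refine ⟨Δ₂, sW, ?_, s, hs⟩
    have := red_union (Δ₁ := ∅) h3 (empty_subset _) s2
      (fun O _ h _ => by simpa using h) a2'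
    simpa using this
  · obtain ⟨Δ₁, s1, a1, t1, b1⟩ := ih _ (lt_of_lt_of_le hlt hn) Ω (redStb G Δ₂) V
      (φ.comp (redStb G Δ₂).subtype) le_rfl (fun g x hx => h3 g x hx) (fun g hg => h0 g hg g.2)
    refine ⟨Δ₁ ∪ Δ₂, union_subset (s1.trans hV) sW, red_union h3 s1 s2
      (fun O h h' hi => a1 O h h' fun g x hx => hi g x hx) a2', t1, fun g hg => ?_⟩
    have e1 : ∀ x, x ∈ Δ₁ ↔ x ∈ Δ₁ ∪ Δ₂ ∧ x ∈ V := fun x => by
      rw [mem_union]
      exact ⟨fun h => ⟨Or.inl h, s1 h⟩, fun ⟨h, h'⟩ =>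
        h.elim id fun h => absurd h' (mem_sdiff.1 (s2 h)).2⟩
    have e2 : ∀ x, x ∈ Δ₂ ↔ x ∈ Δ₁ ∪ Δ₂ ∧ x ∉ V := fun x => by
      rw [mem_union]
      exact ⟨fun h => ⟨Or.inr h, (mem_sdiff.1 (s2 h)).2⟩, fun ⟨h, h'⟩ =>
        h.elim (fun h => absurd (s1 h) h') id⟩
    have m2 : g ∈ redStb G Δ₂ := fun x => by rw [e2, e2 x, hg, red_inv_iff h3]
    exact b1 ⟨g, m2⟩ fun x => by
      change g • x ∈ Δ₁ ↔ _
      rw [e1, e1 x, hg, red_inv_iff h3]

theorem red_weight {Γ : Finset Ω} (hΓ : Γ ⊆ W) (hne : W.Nonempty) (hW : Inv G W)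
    (a : ∀ O ⊆ W, O.Nonempty → Inv G O → 2 * (Γ ∩ O).card < O.card) (δ : Ω → ℕ)
    (h0 : ∀ x ∈ W, 0 < δ x) (h1 : ∀ (g : G), ∀ x ∈ W, δ (g • x) = δ x) :
    2 * ∑ x ∈ Γ, δ x < ∑ x ∈ W, δ x := by
  rw [← sum_fiberwise_of_maps_to (s := W) (t := W.image δ) (g := δ)
      (fun x hx => mem_image_of_mem δ hx),
    ← sum_fiberwise_of_maps_to (s := Γ) (t := W.image δ) (g := δ)
      (fun x hx => mem_image_of_mem δ (hΓ hx)), mul_sum]
  refine sum_lt_sum_of_nonempty (hne.image δ) fun v hv => ?_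
  obtain ⟨y, hy, rfl⟩ := mem_image.1 hv
  rw [sum_congr rfl fun x hx => (mem_filter.1 hx).2,
    sum_congr (s₁ := W.filter fun x => δ x = δ y) rfl fun x hx => (mem_filter.1 hx).2,
    sum_const, sum_const, smul_eq_mul, smul_eq_mul, ← mul_assoc]
  refine Nat.mul_lt_mul_of_pos_right ?_ (h0 y hy)
  have := a (W.filter fun x => δ x = δ y) (filter_subset _ _) ⟨y, mem_filter.2 ⟨hy, rfl⟩⟩
    fun g x hx => by
      rw [mem_filter] at hx ⊢
      exact ⟨hW g x hx.1, (h1 g x hx.1).trans hx.2⟩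
  refine lt_of_le_of_lt (Nat.mul_le_mul_left 2 (card_le_card ?_)) this
  intro x hx
  rw [mem_filter] at hx
  exact mem_inter.2 ⟨hx.1, mem_filter.2 ⟨hΓ hx.1, hx.2⟩⟩

omit [DecidableEq Ω] in
theorem red_card {Ω' : Type} [DecidableEq Ω'] [MulAction G Ω'] {c : Ω → Ω'}
    (hc : ∀ (g : G) x, c (g • x) = g • c x) {A : Finset Ω} {g : G} (hg : ∀ x, g • x ∈ A ↔ x ∈ A)
    (B : Ω') : (A.filter fun x => c x = g • B).card = (A.filter fun x => c x = B).card := by
  symm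
  refine card_bij' (fun x _ => g • x) (fun x _ => g⁻¹ • x) ?_ ?_ ?_ ?_
  · intro x hx
    rw [mem_filter] at hx ⊢
    exact ⟨(hg x).2 hx.1, by rw [hc, hx.2]⟩
  · intro x hx
    rw [mem_filter] at hx ⊢
    exact ⟨(hg _).1 (by simpa using hx.1), by rw [hc, hx.2, inv_smul_smul]⟩
  · intro x _
    exact inv_smul_smul g x
  · intro x _
    exact smul_inv_smul g x

theorem red_map (ih : ∀ m < n, Stmt T m) (hn : W.card ≤ n) (hW : Inv G W)
    (hφ : ∀ g : G, (∀ x ∈ W, g • x = x) → φ g = 1)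
    (htr : ∀ x ∈ W, ∀ y ∈ W, ∃ g : G, g • x = y) {Ω' : Type} [DecidableEq Ω'] [MulAction G Ω']
    (c : Ω → Ω') (hc : ∀ (g : G) x, c (g • x) = g • c x) (hi : ¬ Set.InjOn c W) {a b : Ω}
    (ha : a ∈ W) (hb : b ∈ W) (hab : c a ≠ c b) : Good W φ := by
  have hW' : Inv G (W.image c) := fun g B hB => by
    obtain ⟨x, hx, rfl⟩ := mem_image.1 hB
    exact mem_image.2 ⟨g • x, hW g x hx, hc g x⟩
  have hlt : (W.image c).card < W.card :=
    lt_of_le_of_ne card_image_le fun h => hi (card_image_iff.1 h)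
  have hF : ∀ B, Inv (redKer G (W.image c)) (W.filter fun x => c x = B) := fun B g x hx => by
    rw [mem_filter] at hx ⊢
    refine ⟨hW g x hx.1, ?_⟩
    change c ((g : G) • x) = B
    rw [hc, g.2 _ (mem_image_of_mem c hx.1), hx.2]
  obtain ⟨Δ, s2, a2, t2, b2⟩ : Good W (φ.comp (redKer G (W.image c)).subtype) :=
    intr ih hn (fun g x hx => hW g x hx) (fun g hg => hφ g hg) (V := W.filter fun x => c x = c a)
      (filter_subset _ _) ⟨a, mem_filter.2 ⟨ha, rfl⟩⟩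
      (fun h => hab (mem_filter.1 (h.symm ▸ hb : b ∈ W.filter fun x => c x = c a)).2.symm) (hF _)
  rcases red_dich φ (redKer G (W.image c)) (redStb G Δ) (red_ker_conj hW') (t := t2)
    (fun g hk hl => b2 ⟨g, hk⟩ hl) with ⟨s, hs⟩ | h0
  · exact ⟨Δ, s2, fun O h h' hi => a2 O h h' fun g x hx => hi g x hx, s, hs⟩
  obtain ⟨Γ, s1, a1, t1, b1⟩ := ih _ (lt_of_lt_of_le hlt hn) Ω' (redStb G Δ) (W.image c)
    (φ.comp (redStb G Δ).subtype) le_rfl (fun g x hx => hW' g x hx) (fun g hg => h0 g hg g.2)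
  obtain ⟨Δ', hΔ'⟩ : ∃ Δ' : Finset Ω, ∀ x, x ∈ Δ' ↔ x ∈ W ∧ ¬ (x ∈ Δ ↔ c x ∈ Γ) :=
    ⟨W.filter fun x => ¬ (x ∈ Δ ↔ c x ∈ Γ), fun x => mem_filter⟩
  have f1 : ∀ B ∈ W.image c,
      2 * (Δ.filter fun x => c x = B).card < (W.filter fun x => c x = B).card := fun B hB => by
    obtain ⟨x, hx, rfl⟩ := mem_image.1 hB
    refine lt_of_le_of_lt (Nat.mul_le_mul_left 2 (card_le_card ?_))
      (a2 _ (filter_subset _ _) ⟨x, mem_filter.2 ⟨hx, rfl⟩⟩ (hF (c x)))
    intro y hy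
    rw [mem_filter] at hy
    exact mem_inter.2 ⟨hy.1, mem_filter.2 ⟨s2 hy.1, hy.2⟩⟩
  have f2 : ∀ B ∉ Γ, (Δ'.filter fun x => c x = B) = Δ.filter fun x => c x = B := fun B hB => by
    ext x
    simp only [mem_filter, hΔ']
    constructor
    · rintro ⟨⟨h1, h2⟩, rfl⟩
      exact ⟨by tauto, rfl⟩
    · rintro ⟨h1, rfl⟩
      exact ⟨⟨s2 h1, by tauto⟩, rfl⟩
  have f3 : ∀ B ∈ Γ, (Δ'.filter fun x => c x = B).card + (Δ.filter fun x => c x = B).card =
      (W.filter fun x => c x = B).card := fun B hB => by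
    rw [← card_union_of_disjoint]
    · congr 1
      ext x
      simp only [mem_union, mem_filter, hΔ']
      constructor
      · rintro (⟨⟨h1, h2⟩, rfl⟩ | ⟨h1, rfl⟩)
        · exact ⟨h1, rfl⟩
        · exact ⟨s2 h1, rfl⟩
      · rintro ⟨h1, rfl⟩
        tauto
    · rw [disjoint_left]
      intro x h1 h2
      simp only [mem_filter, hΔ'] at h1 h2
      obtain ⟨⟨_, h3⟩, rfl⟩ := h1
      tauto
  have f4 : ∀ B, B ∈ Γ ↔ B ∈ W.image c ∧
      (W.filter fun x => c x = B).card < 2 * (Δ'.filter fun x => c x = B).card := fun B => by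
    constructor
    · intro hB
      have := f1 B (s1 hB)
      have := f3 B hB
      exact ⟨s1 hB, by omega⟩
    · rintro ⟨h1, h2⟩
      by_contra hB
      have := f1 B h1
      rw [f2 B hB] at h2
      omega
  have sW : Δ' ⊆ W := fun x hx => ((hΔ' x).1 hx).1
  refine ⟨Δ', sW, fun O hO hne hinv => ?_, t1, fun g hg => ?_⟩
  · have hOW : O = W := by
      refine Subset.antisymm hO fun y hy => ?_
      obtain ⟨x, hx⟩ := hne
      obtain ⟨g, rfl⟩ := htr x (hO hx) y hy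
      exact hinv g x hx
    subst hOW
    rw [inter_eq_left.2 sW]
    have w := red_weight (G := redStb G Δ) s1 (hne.image c) (fun g x hx => hW' g x hx) a1
      (fun B => (O.filter fun x => c x = B).card - 2 * (Δ.filter fun x => c x = B).card)
      (fun B hB => by have := f1 B hB; omega) (fun g B _ => by
        change _ - 2 * (Δ.filter fun x => c x = (g : G) • B).card = _
        rw [red_card hc g.2 B]
        congr 1
        exact red_card hc (red_inv_iff hW (g : G)) B)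
    rw [card_eq_sum_card_fiberwise (s := Δ') (t := O.image c) (f := c)
        (fun x hx => mem_image_of_mem c (sW hx)),
      card_eq_sum_card_fiberwise (s := O) (t := O.image c) (f := c)
        (fun x hx => mem_image_of_mem c hx)]
    have e : ∑ B ∈ O.image c, (2 * (Δ'.filter fun x => c x = B).card +
        ((O.filter fun x => c x = B).card - 2 * (Δ.filter fun x => c x = B).card)) =
        ∑ B ∈ O.image c, ((O.filter fun x => c x = B).card + if B ∈ Γ then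
          2 * ((O.filter fun x => c x = B).card - 2 * (Δ.filter fun x => c x = B).card) else 0) := by
      refine sum_congr rfl fun B hB => ?_
      have := f1 B hB
      split_ifs with h
      · have := f3 B h
        omega
      · rw [f2 B h]
        omega
    rw [sum_add_distrib, sum_add_distrib, sum_ite_mem, inter_eq_right.2 s1, ← mul_sum,
      ← mul_sum] at e
    omega
  · have g1 : ∀ B, g • B ∈ Γ ↔ B ∈ Γ := fun B => by
      rw [f4, f4 B, red_inv_iff hW', red_card hc hg, red_card hc (red_inv_iff hW g)]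
    have g2 : g ∈ redStb G Δ := fun x => by
      have h1 := hΔ' x
      have h2 := hΔ' (g • x)
      rw [hg, hc, g1, red_inv_iff hW] at h2
      have h3 : g • x ∈ Δ → x ∈ W := fun h => (red_inv_iff hW g x).1 (s2 h)
      have h4 : x ∈ Δ → x ∈ W := fun h => s2 h
      tauto
    exact b1 ⟨g, g2⟩ g1

open Pointwise in
theorem impr (ih : ∀ m < n, Stmt T m) (hn : W.card ≤ n) (hW : Inv G W)
    (hφ : ∀ g : G, (∀ x ∈ W, g • x = x) → φ g = 1)
    (htr : ∀ x ∈ W, ∀ y ∈ W, ∃ g : G, g • x = y) (hp : ¬ PrimOn G W) : Good W φ := by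
  classical
  simp only [PrimOn, not_forall, not_or] at hp
  obtain ⟨r, hr, hi, ⟨x, hx, y, hy, hxy, hne⟩, a, ha, b, hb, hab⟩ := hp
  refine red_map ih hn hW hφ htr (Ω' := Set Ω) (fun x => {y | r x y}) (fun g x => ?_)
    (fun h => hne (h hx hy ?_)) ha hb (fun h => hab ?_)
  · ext y
    rw [Set.mem_smul_set_iff_inv_smul_mem]
    exact ⟨fun h => by simpa using hi g⁻¹ _ _ h, fun h => by simpa using hi g _ _ h⟩
  · ext z
    exact ⟨fun h => hr.trans (hr.symm hxy) h, fun h => hr.trans hxy h⟩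
  · have : b ∈ {y | r b y} := hr.refl b
    rwa [← h] at this

end Pool.Agent.Lib.MP_5c8dfa_al.LS
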