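import Pool.Agent.Lib.MP_5c8dfa_al.LS.Uni
import Pool.Agent.Lib.MP_5c8dfa_al.LS.Chain
import Pool.Agent.Lib.MP_5c8dfa_al.LS.DegA
import Pool.Agent.Lib.MP_5c8dfa_al.LS.DegB
import Pool.Agent.Lib.MP_5c8dfa_al.LS.Asym
import Pool.Agent.Lib.MP_5c8dfa_al.LS.Num
import Pool.Agent.Lib.MP_5c8dfa_al.LS.Red

/-! The primitive case and the induction. -/

namespace Pool.Agent.Lib.MP_5c8dfa_al.LS

open Finset MulAction Equiv

theorem asym_prim : ∃ n0 : ℕ, ∀ (Ω : Type) [Fintype Ω] [DecidableEq Ω] (G : Subgroup (Perm Ω)),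
    n0 ≤ Fintype.card Ω → IsPretransitive G Ω → PrimOn G (univ : Finset Ω) →
    ¬ alternatingGroup Ω ≤ G → ∃ Δ : Finset Ω, 2 * Δ.card < Fintype.card Ω ∧
      ∀ g ∈ G, (∀ x, g x ∈ Δ ↔ x ∈ Δ) → g = 1 := by
  obtain ⟨n0, h⟩ := num
  refine ⟨n0, fun Ω _ _ G hn htr hp ha => ?_⟩
  obtain ⟨a, L, k, t, Y, h1, h2, h3, h4, h5, h6, h7, h8, h9⟩ := h _ hn
  have hpos : 0 < Fintype.card Ω := by omega
  have : Nonempty Ω := Fintype.card_pos_iff.1 hpos
  have h3' : Fintype.card Ω ^ 2 < 2 ^ L := by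
    have : 0 < Fintype.card Ω ^ 2 := by positivity
    omega
  obtain ⟨B, hB, hc⟩ : ∃ B : Finset Ω, IsBase G B ∧ B.card ≤ t + a * (4 * L) + k := by
    by_cases h2t : IsMultiplyPretransitive G Ω 2
    · refine chain h1 t G Ω h2t (fun ht => ha ?_) h5 h3' h4
      obtain ⟨g, hg, g1, gs⟩ := small_supp ht (by omega) h7 h8
      exact alt_of_small ht h6 hg g1 gs
    · obtain ⟨B, hB, hc⟩ := uni hp h2t h1 h2 h3' h4
      exact ⟨B, hB, by omega⟩
  exact asym hB (le_trans (by gcongr) h9) h3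

theorem main_card {G T P : Type} [Group G] [Group T] [Group P] [Finite P] (ρ : G →* P)
    (φ : G →* T) (hs : Function.Surjective φ) (hk : ∀ g, ρ g = 1 → φ g = 1) :
    Nat.card T ≤ Nat.card P := by
  choose s hs' using hs
  refine Nat.card_le_card_of_injective (fun t => ρ (s t)) fun t t' h => ?_
  have := hk (s t * (s t')⁻¹) (by rw [map_mul, map_inv, mul_inv_eq_one]; exact h)
  rwa [map_mul, map_inv, hs', hs', mul_inv_eq_one] at this

theorem main_giant {G T X : Type} [Group G] [Group T] [Fintype X] [DecidableEq X]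
    (ρ : G →* Perm X) (φ : G →* T) (hs : Function.Surjective φ) (hk : ∀ g, ρ g = 1 → φ g = 1)
    (h5 : 5 ≤ Fintype.card X) (hA : alternatingGroup X ≤ ρ.range) (hT : 2 < Nat.card T)
    (htr : ∀ x y : X, ∃ g, ρ g x = y) (a : X) : ∃ t, ∀ g, ρ g a = a → φ g ≠ t := by
  by_contra hc
  push Not at hc
  have h1 : ∀ y, ∃ k, φ k = 1 ∧ ρ k a = y := fun y => by
    obtain ⟨g, hg⟩ := htr a y
    obtain ⟨g', h1, h2⟩ := hc (φ g)
    refine ⟨g * g'⁻¹, by rw [map_mul, map_inv, h2, mul_inv_cancel], ?_⟩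
    rw [map_mul, map_inv, Perm.mul_apply, Perm.inv_eq_iff_eq.2 h1.symm, hg]
  choose k hk1 hk2 using h1
  obtain ⟨y, y', hne, he⟩ := Fintype.exists_ne_map_eq_of_card_lt (fun y => Perm.sign (ρ (k y)))
    (by rw [Fintype.card_units_int]; omega)
  have hN : ((φ.ker.map ρ).subgroupOf (alternatingGroup X)).Normal := ⟨by
    rintro ⟨σ, hσ⟩ ⟨κ, h1, h2⟩ ⟨τ, hτ⟩
    obtain ⟨g, rfl⟩ := hA hτ
    refine ⟨g * κ * g⁻¹, (MonoidHom.normal_ker φ).conj_mem κ h1 g, ?_⟩
    rw [map_mul, map_mul, map_inv, h2]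
    rfl⟩
  have := alternatingGroup.isSimpleGroup (α := X) (by rwa [Nat.card_eq_fintype_card])
  rcases hN.eq_bot_or_eq_top with h0 | h0
  · have hs1 : ρ ((k y)⁻¹ * k y') ∈ alternatingGroup X := by
      rw [Perm.mem_alternatingGroup, map_mul, map_inv, map_mul, map_inv, inv_mul_eq_one]
      exact he
    have : (⟨_, hs1⟩ : alternatingGroup X) ∈ (φ.ker.map ρ).subgroupOf (alternatingGroup X) :=
      ⟨(k y)⁻¹ * k y', by simp [hk1], rfl⟩
    rw [h0, Subgroup.mem_bot, Subtype.ext_iff] at this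
    have h2 : ρ (k y) = ρ (k y') := by
      have h3 : ρ ((k y)⁻¹ * k y') = 1 := this
      rwa [map_mul, map_inv, inv_mul_eq_one] at h3
    exact hne (by rw [← hk2 y, h2, hk2])
  · have := main_card (Perm.sign.comp ρ) φ hs fun g hg => by
      have h1 : (⟨ρ g, hg⟩ : alternatingGroup X) ∈
          (φ.ker.map ρ).subgroupOf (alternatingGroup X) := h0 ▸ Subgroup.mem_top _
      obtain ⟨κ, h2, h3⟩ := h1
      have h4 : ρ κ = ρ g := h3
      have h5 := hk (κ⁻¹ * g) (by rw [map_mul, map_inv, h4, inv_mul_cancel])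
      have h6 : φ κ = 1 := h2
      rwa [map_mul, map_inv, h6, inv_one, one_mul] at h5
    rw [Nat.card_eq_fintype_card (α := ℤˣ), Fintype.card_units_int] at this
    omega

theorem main_perm : ∃ C : ℕ, ∀ (G T X : Type) [Group G] [Group T] [Fintype X] [DecidableEq X]
    (ρ : G →* Perm X) (φ : G →* T), C ≤ Nat.card T → (∀ g, ρ g = 1 → φ g = 1) →
    (∀ x y : X, ∃ g, ρ g x = y) → PrimOn ρ.range (univ : Finset X) → Nonempty X →
    ∃ Δ : Finset X, 2 * Δ.card < Fintype.card X ∧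
      ∃ t, ∀ g, (∀ x, ρ g x ∈ Δ ↔ x ∈ Δ) → φ g ≠ t := by
  obtain ⟨n0, h⟩ := asym_prim
  refine ⟨(n0 + 5).factorial + 3, fun G T X _ _ _ _ ρ φ hC hk htr hp ⟨a⟩ => ?_⟩
  by_cases hs : Function.Surjective φ
  swap
  · simp only [Function.Surjective, not_forall, not_exists] at hs
    obtain ⟨t, ht⟩ := hs
    have : Nonempty X := ⟨a⟩
    exact ⟨∅, by simpa using Fintype.card_pos, t, fun g _ => ht g⟩
  have h1 := main_card ρ φ hs hk
  rw [Nat.card_eq_fintype_card (α := Perm X), Fintype.card_perm] at h1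
  have h2 : n0 + 5 ≤ Fintype.card X := by
    by_contra h3
    have := Nat.factorial_le (Nat.le_of_lt (not_le.1 h3))
    omega
  by_cases hA : alternatingGroup X ≤ ρ.range
  · obtain ⟨t, ht⟩ := main_giant ρ φ hs hk (by omega) hA (by omega) htr a
    exact ⟨{a}, by rw [card_singleton]; omega, t, fun g hg =>
      ht g (mem_singleton.1 ((hg a).2 (mem_singleton_self a)))⟩
  · obtain ⟨Δ, h3, h4⟩ := h X ρ.range (by omega) ⟨fun x y => by
      obtain ⟨g, hg⟩ := htr x y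
      exact ⟨⟨ρ g, g, rfl⟩, hg⟩⟩ hp hA
    have : Finite T := Nat.finite_of_card_ne_zero (by omega)
    have : Nontrivial T := Finite.one_lt_card_iff_nontrivial.1 (by omega)
    obtain ⟨t, ht⟩ := exists_ne (1 : T)
    exact ⟨Δ, h3, t, fun g hg => by rw [hk g (h4 _ ⟨g, rfl⟩ hg)]; exact ht.symm⟩

theorem main_prim : ∃ C : ℕ, ∀ (T Ω G : Type) [Group T] [DecidableEq Ω] [Group G] [MulAction G Ω]
    (W : Finset Ω) (φ : G →* T), C ≤ Nat.card T → Inv G W →
    (∀ g : G, (∀ x ∈ W, g • x = x) → φ g = 1) → W.Nonempty →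
    (∀ x ∈ W, ∀ y ∈ W, ∃ g : G, g • x = y) → PrimOn G W → Good W φ := by
  obtain ⟨C, h⟩ := main_perm
  refine ⟨C, fun T Ω G _ _ _ _ W φ hC hW hφ hne htr hp => ?_⟩
  let S : SubMulAction G Ω := ⟨↑W, fun g x hx => hW g x hx⟩
  let _ : Fintype S := Fintype.subtype W fun _ => Iff.rfl
  have hc : Fintype.card S = W.card := Fintype.card_of_subtype W fun _ => Iff.rfl
  obtain ⟨Δ, h1, t, h2⟩ := h G T S (toPermHom G S) φ hC
    (fun g hg => hφ g fun x hx => congrArg Subtype.val (Perm.ext_iff.1 hg ⟨x, hx⟩))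
    (fun x y => by
      obtain ⟨g, hg⟩ := htr x x.2 y y.2
      exact ⟨g, Subtype.ext hg⟩)
    (fun r hr hi => by
      rcases hp (fun x y => x = y ∨ ∃ hx hy, r ⟨x, hx⟩ ⟨y, hy⟩) ⟨fun x => Or.inl rfl, by
        rintro x y (rfl | ⟨hx, hy, h⟩)
        · exact Or.inl rfl
        · exact Or.inr ⟨hy, hx, hr.symm h⟩, by
        rintro x y z (rfl | ⟨hx, hy, h⟩) h'
        · exact h'
        · rcases h' with rfl | ⟨_, hz, h'⟩
          · exact Or.inr ⟨hx, hy, h⟩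
          · exact Or.inr ⟨hx, hz, hr.trans h h'⟩⟩ (by
        rintro g x y (rfl | ⟨hx, hy, h⟩)
        · exact Or.inl rfl
        · exact Or.inr ⟨hW g x hx, hW g y hy, hi ⟨_, g, rfl⟩ _ _ h⟩) with h | h
      · exact Or.inl fun x _ y _ hxy => Subtype.ext (h x x.2 y y.2 (Or.inr ⟨x.2, y.2, hxy⟩))
      · refine Or.inr fun x _ y _ => ?_
        rcases h x x.2 y y.2 with h | ⟨_, _, h⟩
        · rw [Subtype.ext h]
          exact hr.refl y
        · exact h)
    (by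
      obtain ⟨x, hx⟩ := hne
      exact ⟨⟨x, hx⟩⟩)
  have sW : Δ.map (Function.Embedding.subtype _) ⊆ W := fun x hx => by
    obtain ⟨y, _, rfl⟩ := mem_map.1 hx
    exact y.2
  refine ⟨Δ.map (Function.Embedding.subtype _), sW, fun O hO hne hinv => ?_, t, fun g hg =>
    h2 g fun x => ?_⟩
  · have hOW : O = W := by
      refine Subset.antisymm hO fun y hy => ?_
      obtain ⟨x, hx⟩ := hne
      obtain ⟨g, rfl⟩ := htr x (hO hx) y hy
      exact hinv g x hx
    rw [hOW, inter_eq_left.2 sW, card_map, ← hc]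
    exact h1
  · rw [← mem_map' (Function.Embedding.subtype _), ← mem_map' (a := x)
      (Function.Embedding.subtype _)]
    exact hg x

theorem main_stmt : ∃ C : ℕ, ∀ (T : Type) [Group T] [IsSimpleGroup T], C ≤ Nat.card T →
    ∀ n, Stmt T n := by
  obtain ⟨C, h⟩ := main_prim
  refine ⟨C, fun T _ _ hC n => ?_⟩
  induction n using Nat.strong_induction_on with
  | _ n ih =>
  intro Ω G _ _ _ W φ hn hW hφ
  rcases W.eq_empty_or_nonempty with rfl | hne
  · obtain ⟨t, ht⟩ := exists_ne (1 : T)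
    refine ⟨∅, Subset.rfl, fun O hO hne _ => ?_, t, fun g _ => ?_⟩
    · simpa using hne
    · rw [hφ g (by simp)]
      exact ht.symm
  by_cases htr : ∀ x ∈ W, ∀ y ∈ W, ∃ g : G, g • x = y
  · by_cases hp : PrimOn G W
    · exact h T Ω G W φ hC hW hφ hne htr hp
    · exact impr ih hn hW hφ htr hp
  · classical
    push Not at htr
    obtain ⟨x, hx, y, hy, hxy⟩ := htr
    refine intr ih hn hW hφ (V := W.filter fun z => ∃ g : G, g • x = z) (filter_subset _ _)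
      ⟨x, mem_filter.2 ⟨hx, 1, one_smul G x⟩⟩ (fun e => ?_) fun g z hz => ?_
    · obtain ⟨g, hg⟩ := (mem_filter.1 (e.symm ▸ hy : y ∈ W.filter fun z => ∃ g : G, g • x = z)).2
      exact hxy g hg
    · rw [mem_filter] at hz ⊢
      obtain ⟨hz, g', rfl⟩ := hz
      exact ⟨hW g _ hz, g * g', mul_smul g g' x⟩

theorem main : ∃ C : ℕ, ∀ (Ω : Type) [Finite Ω] (G : Subgroup (Perm Ω)) (H : Type) [Group H]
    (φ : G →* H), Function.Surjective φ →
    (∃ (K : Subgroup H) (T : Type) (_ : Group T) (ψ : K →* T),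
      IsSimpleGroup T ∧ Function.Surjective ψ ∧ C ≤ Nat.card T) →
    ∃ Δ : Set Ω, ∃ h : H, ∀ g : G, (g : Perm Ω) '' Δ = Δ → φ g ≠ h := by
  obtain ⟨C, h⟩ := main_stmt
  refine ⟨C, fun Ω _ G H _ φ _ ⟨K, T, _, ψ, hT, hψ, hC⟩ => ?_⟩
  classical
  have := Fintype.ofFinite Ω
  obtain ⟨Δ, -, -, t, ht⟩ := h T hC _ Ω (K.comap φ) univ (ψ.comp (φ.subgroupComap K)) le_rfl
    (fun _ _ _ => mem_univ _) fun g hg => by
      have : g = 1 := Subtype.ext (Subtype.ext (Perm.ext fun x => hg x (mem_univ x)))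
      rw [this, map_one]
  obtain ⟨k, rfl⟩ := hψ t
  refine ⟨Δ, k, fun g hg e => ht ⟨g, show φ g ∈ K from e ▸ k.2⟩ (fun x => ?_) ?_⟩
  · change (g : Perm Ω) x ∈ (Δ : Set Ω) ↔ x ∈ (Δ : Set Ω)
    conv_lhs => rw [← hg]
    exact (g : Perm Ω).injective.mem_set_image
  · exact congrArg ψ (Subtype.ext e)

end Pool.Agent.Lib.MP_5c8dfa_al.LS
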