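import Pool.Agent.Lib.MP_5c8dfa_al.LS.Defs

/-! Multiple transitivity for any index type. -/

namespace Pool.Agent.Lib.MP_5c8dfa_al.LS

open Finset MulAction Equiv

variable {Ω : Type} [Fintype Ω] [DecidableEq Ω]

theorem mt {G : Subgroup (Perm Ω)} {t : ℕ} (ht : IsMultiplyPretransitive G Ω t)
    (hn : t ≤ Fintype.card Ω) {ι : Type} [Fintype ι] (hι : Fintype.card ι ≤ t) (e e' : ι ↪ Ω) :
    ∃ g ∈ G, ∀ i, g (e i) = e' i := by
  have h : IsMultiplyPretransitive G Ω (Fintype.card ι) :=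
    isMultiplyPretransitive_of_le (n := t) hι (by rwa [Nat.card_eq_fintype_card])
  obtain ⟨g, hg⟩ := isMultiplyPretransitive_iff.1 h
    ((Fintype.equivFin ι).symm.toEmbedding.trans e) ((Fintype.equivFin ι).symm.toEmbedding.trans e')
  refine ⟨g, g.2, fun i => ?_⟩
  have := congrArg (fun f : Fin (Fintype.card ι) ↪ Ω => f (Fintype.equivFin ι i)) hg
  simpa [Function.Embedding.smul_apply, Subgroup.smul_def] using this

end Pool.Agent.Lib.MP_5c8dfa_al.LS
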