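import Pool.Agent.Lib.MP_5c8dfa_al.LS.Hit

/-! Doubly transitive groups of bounded transitivity have small bases. -/

namespace Pool.Agent.Lib.MP_5c8dfa_al.LS

open Finset MulAction
open scoped Classical

section Aux
variable {G Ω : Type} [Group G] [MulAction G Ω] [Fintype Ω] [DecidableEq Ω]

theorem two_sum (h2 : ∀ a b c d : Ω, a ≠ b → c ≠ d → ∃ g : G, g • a = c ∧ g • b = d)
    (f : Ω → Ω → ℕ) (hi : ∀ (g : G) a b, f a b ≤ f (g • a) (g • b)) (h0 : ∀ a, f a a = 0)
    {a b : Ω} (hab : a ≠ b) : ∑ x, ∑ y, f x y = (univ : Finset Ω).offDiag.card * f a b := by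
  rw [← sum_product', ← smul_eq_mul, ← sum_const,
    ← sum_subset (s₁ := (univ : Finset Ω).offDiag) (fun z _ => by simp) fun z _ hz => ?_]
  · refine sum_congr rfl fun z hz => ?_
    have hz := (mem_offDiag.1 hz).2.2
    obtain ⟨g, g1, g2⟩ := h2 a b z.1 z.2 hab hz
    obtain ⟨k, k1, k2⟩ := h2 z.1 z.2 a b hz hab
    have e1 := hi g a b
    have e2 := hi k z.1 z.2
    rw [g1, g2] at e1
    rw [k1, k2] at e2
    omega
  · have : z.1 = z.2 := by simpa using hz
    rw [this, h0]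

theorem two_map {T : Type} [Fintype T] [MulAction G T] (g : G) {p q : T → Prop}
    [DecidablePred p] [DecidablePred q] (h : ∀ t, p t → q (g • t)) : (univ.filter p).card ≤ (univ.filter q).card :=
  card_le_card_of_injOn (fun t => g • t)
    (fun t ht => by simpa using h t (by simpa using ht))
    fun _ _ _ _ e => MulAction.injective g e

theorem two_cnt (h2 : ∀ a b c d : Ω, a ≠ b → c ≠ d → ∃ g : G, g • a = c ∧ g • b = d)
    (T : Ω → Ω → Ω → Prop) (hi : ∀ (g : G) a b c, T a b c → T (g • a) (g • b) (g • c))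
    (hn : ∀ a c, ¬ T a a c) {a b : Ω} (hab : a ≠ b) :
    ∑ x, ∑ y, ∑ c, (if T x y c then 1 else 0) =
      (univ : Finset Ω).offDiag.card * (univ.filter (T a b)).card := by
  rw [← two_sum h2 (fun a b => (univ.filter (T a b)).card) (fun g a b => two_map g (hi g a b))
    (fun a => by simp [hn]) hab]
  simp only [card_filter]

/-- The two stages of the greedy choice. -/
theorem two_core (E : Ω → Ω → Ω → Ω → Prop) {β : ℕ} (hβ : 0 < β)
    (hE : ∀ x y, x ≠ y → β * Fintype.card Ω ≤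
      2 * (univ.filter fun p : Ω × Ω => E x y p.1 p.2).card)
    (h1 : ∀ x y z, (univ.filter fun w => E x y z w).card ≤ β)
    (h2 : ∀ x y w, (univ.filter fun z => E x y z w).card ≤ β) {j L k : ℕ}
    (hj0 : 0 < j) (hj : 4 * j ≤ Fintype.card Ω) (hL : Fintype.card Ω ^ 2 < 2 ^ L)
    (hk : Fintype.card Ω * L ≤ j * k) :
    ∃ S : Finset Ω, S.card ≤ j * (4 * L) + k ∧ ∀ x y, x ≠ y → ∃ z ∈ S, ∃ w ∈ S, E x y z w := by
  let N : Ω × Ω → Finset Ω → Finset Ω := fun p S => univ.filter fun w => ∃ z ∈ S, E p.1 p.2 z w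
  have hA : ∀ A : Finset (Ω × Ω), A.card < 2 ^ L := fun A =>
    ((card_le_univ A).trans_eq (by rw [Fintype.card_prod, sq])).trans_lt hL
  have hZ : ∀ x y, x ≠ y → ∀ M : Finset Ω, M.card ≤ j → (Fintype.card Ω + 3) / 4 ≤
      (univ.filter fun z => ∃ w ∉ M, E x y z w).card := by
    intro x y hxy M hM
    have s1 : (univ.filter fun p : Ω × Ω => E x y p.1 p.2) ⊆
        (M.biUnion fun w => (univ.filter fun z => E x y z w).image fun z => (z, w)) ∪
        (univ.filter fun z => ∃ w ∉ M, E x y z w).biUnion fun z =>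
          (univ.filter fun w => E x y z w).image fun w => (z, w) := by
      rintro ⟨z, w⟩ hp
      have hp : E x y z w := (mem_filter.1 hp).2
      by_cases hw : w ∈ M
      · exact mem_union_left _ (mem_biUnion.2 ⟨w, hw,
          mem_image.2 ⟨z, mem_filter.2 ⟨mem_univ _, hp⟩, rfl⟩⟩)
      · exact mem_union_right _ (mem_biUnion.2 ⟨z, mem_filter.2 ⟨mem_univ _, w, hw, hp⟩,
          mem_image.2 ⟨w, mem_filter.2 ⟨mem_univ _, hp⟩, rfl⟩⟩)
    have s2 := (card_le_card s1).trans ((card_union_le _ _).trans (add_le_add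
      (card_biUnion_le_card_mul _ _ β fun w _ => card_image_le.trans (h2 x y w))
      (card_biUnion_le_card_mul _ _ β fun z _ => card_image_le.trans (h1 x y z))))
    have s3 := hE x y hxy
    have s4 : β * Fintype.card Ω ≤
        β * (4 * (univ.filter fun z => ∃ w ∉ M, E x y z w).card) := by
      have := Nat.mul_le_mul_left β ((Nat.mul_le_mul_left 4 hM).trans hj)
      nlinarith
    have := Nat.le_of_mul_le_mul_left s4 hβ
    omega
  have st : ∀ i ≤ j, ∃ S : Finset Ω, S.card ≤ i * (4 * L) ∧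
      ∀ p : Ω × Ω, p.1 ≠ p.2 → i ≤ (N p S).card := by
    intro i
    induction i with
    | zero => exact fun _ => ⟨∅, by simp, fun _ _ => Nat.zero_le _⟩
    | succ i ih =>
      intro hi
      obtain ⟨S, a1, a2⟩ := ih (by omega)
      obtain ⟨S', b1, b2⟩ := hit (univ.filter fun p : Ω × Ω => p.1 ≠ p.2 ∧ (N p S).card ≤ j)
        (fun p => univ.filter fun z => ∃ w ∉ N p S, E p.1 p.2 z w)
        (D := (Fintype.card Ω + 3) / 4) (L := L) (k := 4 * L) (by omega)
        (fun p hp => hZ _ _ (mem_filter.1 hp).2.1 _ (mem_filter.1 hp).2.2) (hA _)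
        (by rw [← mul_assoc]; exact Nat.mul_le_mul_right _ (by omega))
      refine ⟨S ∪ S', (card_union_le _ _).trans (by rw [Nat.succ_mul]; omega), fun p hp => ?_⟩
      have m : N p S ⊆ N p (S ∪ S') := fun w hw => by
        obtain ⟨z, hz, e⟩ := (mem_filter.1 hw).2
        exact mem_filter.2 ⟨mem_univ _, z, mem_union_left _ hz, e⟩
      by_cases hc : (N p S).card ≤ j
      · obtain ⟨z, hz, hz'⟩ := b2 p (mem_filter.2 ⟨mem_univ _, hp, hc⟩)
        obtain ⟨w, hw, e⟩ := (mem_filter.1 hz').2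
        exact (a2 p hp).trans_lt (card_lt_card ((ssubset_iff_of_subset m).2
          ⟨w, mem_filter.2 ⟨mem_univ _, z, mem_union_right _ hz, e⟩, hw⟩))
      · have := card_le_card m
        omega
  obtain ⟨S, a1, a2⟩ := st j le_rfl
  obtain ⟨S', b1, b2⟩ := hit (univ.filter fun p : Ω × Ω => p.1 ≠ p.2) (fun p => N p S) hj0
    (fun p hp => a2 p (mem_filter.1 hp).2) (hA _) hk
  refine ⟨S ∪ S', (card_union_le _ _).trans (add_le_add a1 b1), fun x y hxy => ?_⟩
  obtain ⟨w, hw, hw'⟩ := b2 (x, y) (mem_filter.2 ⟨mem_univ _, hxy⟩)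
  obtain ⟨z, hz, e⟩ := (mem_filter.1 hw').2
  exact ⟨z, mem_union_left _ hz, w, mem_union_right _ hw, e⟩

theorem two_orb (h2 : ∀ a b c d : Ω, a ≠ b → c ≠ d → ∃ g : G, g • a = c ∧ g • b = d)
    (h3 : ¬ IsMultiplyPretransitive G Ω 3) : ∃ z w x : Ω, z ≠ w ∧ z ≠ x ∧ w ≠ x ∧
      2 * (univ.filter fun y => ∃ g : G, g • z = z ∧ g • w = w ∧ g • x = y).card ≤
        Fintype.card Ω := by
  by_contra hc
  refine h3 ⟨fun e e' => ?_⟩
  have ne : ∀ (e : Fin 3 ↪ Ω) {i k : Fin 3}, i ≠ k → e i ≠ e k := fun e _ _ h => e.injective.ne h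
  obtain ⟨g, g0, g1⟩ := h2 (e 0) (e 1) (e' 0) (e' 1) (ne e (by decide)) (ne e' (by decide))
  have key : ∃ h : G, h • e' 0 = e' 0 ∧ h • e' 1 = e' 1 ∧ h • g • e 2 = e' 2 := by
    by_contra hn
    have d : Disjoint
        (univ.filter fun y => ∃ h : G, h • e' 0 = e' 0 ∧ h • e' 1 = e' 1 ∧ h • g • e 2 = y)
        (univ.filter fun y => ∃ h : G, h • e' 0 = e' 0 ∧ h • e' 1 = e' 1 ∧ h • e' 2 = y) := by
      refine disjoint_left.2 fun y hy hy' => ?_
      obtain ⟨a, a0, a1, a2⟩ := (mem_filter.1 hy).2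
      obtain ⟨b, b0, b1, b2⟩ := (mem_filter.1 hy').2
      refine hn ⟨b⁻¹ * a, ?_, ?_, ?_⟩ <;> rw [mul_smul, inv_smul_eq_iff]
      exacts [a0.trans b0.symm, a1.trans b1.symm, a2.trans b2.symm]
    have d2 := card_le_univ (disjUnion _ _ d)
    rw [card_disjUnion] at d2
    have c1 := mt (fun h => (⟨e' 0, e' 1, g • e 2, ne e' (by decide),
      g0 ▸ (MulAction.injective g).ne (ne e (by decide)),
      g1 ▸ (MulAction.injective g).ne (ne e (by decide)), h⟩ : ∃ z w x : Ω, _)) hc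
    have c2 := mt (fun h => (⟨e' 0, e' 1, e' 2, ne e' (by decide), ne e' (by decide),
      ne e' (by decide), h⟩ : ∃ z w x : Ω, _)) hc
    omega
  obtain ⟨h, k0, k1, k2⟩ := key
  refine ⟨h * g, Function.Embedding.ext fun i => ?_⟩
  rw [Function.Embedding.smul_apply, mul_smul]
  fin_cases i
  exacts [(congrArg (h • ·) g0).trans k0, (congrArg (h • ·) g1).trans k1, k2]

end Aux

theorem two {G Ω : Type} [Group G] [MulAction G Ω] [Fintype Ω] [DecidableEq Ω]
    (h2 : IsMultiplyPretransitive G Ω 2) (h3 : ¬ IsMultiplyPretransitive G Ω 3) {j L k : ℕ}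
    (hj0 : 0 < j) (hj : 4 * j ≤ Fintype.card Ω) (hL : Fintype.card Ω ^ 2 < 2 ^ L)
    (hk : Fintype.card Ω * L ≤ j * k) :
    ∃ S : Finset Ω, IsBase G S ∧ S.card ≤ j * (4 * L) + k := by
  have h2' : ∀ a b c d : Ω, a ≠ b → c ≠ d → ∃ g : G, g • a = c ∧ g • b = d :=
    fun _ _ _ _ h h' => is_two_pretransitive_iff.1 h2 h h'
  obtain ⟨z0, w0, x0, n1, n2, n3, hb⟩ := two_orb h2' h3
  let R : Ω → Ω → Ω → Prop := fun z w x => ∃ g : G, g • z0 = z ∧ g • w0 = w ∧ g • x0 = x
  have hi : ∀ (g : G) z w x, R z w x → R (g • z) (g • w) (g • x) := by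
    rintro g _ _ _ ⟨h, rfl, rfl, rfl⟩
    exact ⟨g * h, mul_smul _ _ _, mul_smul _ _ _, mul_smul _ _ _⟩
  have hi' : ∀ (g : G) z w x, R (g • z) (g • w) (g • x) → R z w x := fun g z w x h => by
    simpa only [inv_smul_smul] using hi g⁻¹ _ _ _ h
  have r1 : ∀ a c, ¬ R a a c := fun a c ⟨g, e, e', _⟩ =>
    n1 (MulAction.injective g (e.trans e'.symm))
  have r2 : ∀ a c, ¬ R a c a := fun a c ⟨g, e, _, e'⟩ =>
    n2 (MulAction.injective g (e.trans e'.symm))
  have r3 : ∀ a c, ¬ R c a a := fun a c ⟨g, _, e, e'⟩ =>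
    n3 (MulAction.injective g (e.trans e'.symm))
  have hm : 0 < (univ : Finset Ω).offDiag.card :=
    card_pos.2 ⟨(z0, w0), mem_offDiag.2 ⟨mem_univ _, mem_univ _, n1⟩⟩
  have c0 := two_cnt h2' R hi r1 n1
  set β := (univ.filter (R z0 w0)).card with hβ
  have hb' : 2 * β ≤ Fintype.card Ω := by convert hb
  have β0 : 0 < β := card_pos.2 ⟨x0, mem_filter.2 ⟨mem_univ _, 1, one_smul _ _, one_smul _ _,
    one_smul _ _⟩⟩
  have c1 : ∀ z w, z ≠ w → (univ.filter (R z w)).card = β := fun z w h =>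
    Nat.eq_of_mul_eq_mul_left hm ((two_cnt h2' R hi r1 h).symm.trans c0)
  have c2 : ∀ z x, (univ.filter fun w => R z w x).card ≤ β := fun z x => by
    by_cases h : z = x
    · simp [h, r2]
    refine (Nat.eq_of_mul_eq_mul_left hm (((two_cnt h2' (fun z x w => R z w x)
      (fun g a b c => hi g a c b) r2 h).symm.trans ?_).trans c0)).le
    exact sum_congr rfl fun _ _ => sum_comm
  have c3 : ∀ w x, (univ.filter fun z => R z w x).card ≤ β := fun w x => by
    by_cases h : w = x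
    · simp [h, r3]
    refine (Nat.eq_of_mul_eq_mul_left hm (((two_cnt h2' (fun w x z => R z w x)
      (fun g a b c => hi g c a b) r3 h).symm.trans ?_).trans c0)).le
    exact (sum_congr rfl fun _ _ => sum_comm).trans sum_comm
  have c4 : ∀ x y, x ≠ y → β * Fintype.card Ω ≤
      2 * (univ.filter fun p : Ω × Ω => R p.1 p.2 x ∧ ¬ R p.1 p.2 y).card := by
    intro x y hxy
    have e1 := two_sum h2'
      (fun x y => (univ.filter fun p : Ω × Ω => R p.1 p.2 x ∧ ¬ R p.1 p.2 y).card)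
      (fun g a b => two_map g fun p hp => ⟨hi g _ _ _ hp.1, fun h => hp.2 (hi' g _ _ _ h)⟩)
      (fun a => by simp) hxy
    have e2 := two_sum h2'
      (fun z w => (univ.filter fun p : Ω × Ω => R z w p.1 ∧ ¬ R z w p.2).card)
      (fun g a b => two_map g fun p hp => ⟨hi g _ _ _ hp.1, fun h => hp.2 (hi' g _ _ _ h)⟩)
      (fun a => by simp [r1]) n1
    have e3 : (univ.filter fun p : Ω × Ω => R z0 w0 p.1 ∧ ¬ R z0 w0 p.2).card =
        β * (Fintype.card Ω - β) := by
      have : (univ.filter fun p : Ω × Ω => R z0 w0 p.1 ∧ ¬ R z0 w0 p.2) =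
          univ.filter (R z0 w0) ×ˢ (univ.filter (R z0 w0))ᶜ := by
        ext p
        simp
      rw [this, card_product, card_compl]
    have e4 : ∑ x, ∑ y, (univ.filter fun p : Ω × Ω => R p.1 p.2 x ∧ ¬ R p.1 p.2 y).card =
        ∑ z, ∑ w, (univ.filter fun p : Ω × Ω => R z w p.1 ∧ ¬ R z w p.2).card := by
      rw [← sum_product', ← sum_product', univ_product_univ]
      simp only [card_filter]
      exact sum_comm
    have e5 := Nat.eq_of_mul_eq_mul_left hm ((e1.symm.trans e4).trans e2)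
    rw [e5, e3, mul_left_comm]
    exact Nat.mul_le_mul_left _ (by omega)
  obtain ⟨S, s1, s2⟩ := two_core (fun x y z w => R z w x ∧ ¬ R z w y) β0
    (fun x y h => by convert c4 x y h)
    (fun x y z => (card_le_card fun w hw => by
      simp only [mem_filter, mem_univ, true_and] at hw ⊢
      exact hw.1).trans (c2 z x))
    (fun x y w => (card_le_card fun z hz => by
      simp only [mem_filter, mem_univ, true_and] at hz ⊢
      exact hz.1).trans (c3 w x)) hj0 hj hL hk
  refine ⟨S, fun g hg x => ?_, s1⟩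
  by_contra hx
  obtain ⟨z, hz, w, hw, e1, e2⟩ := s2 x (g • x) (Ne.symm hx)
  have := hi g _ _ _ e1
  rw [hg z hz, hg w hw] at this
  exact e2 this

end Pool.Agent.Lib.MP_5c8dfa_al.LS
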