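import Pool.Agent.Lib.MP_5c8dfa_al.LS.Defs

/-! The largest separating set is bounded by the least one. -/

namespace Pool.Agent.Lib.MP_5c8dfa_al.LS

open Finset MulAction

variable {G Ω : Type} [Group G] [MulAction G Ω] [Fintype Ω] [DecidableEq Ω]

omit [DecidableEq Ω] in
theorem UniA_mem {x y z : Ω} : z ∈ sep G x y ↔ ¬ ∃ g : G, g • z = z ∧ g • x = y := by
  simp only [sep, mem_filter, mem_univ, true_and]

omit [DecidableEq Ω] in
theorem UniA_symm (x y : Ω) : sep G x y = sep G y x := by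
  have h : ∀ x y z : Ω, (∃ g : G, g • z = z ∧ g • x = y) → ∃ g : G, g • z = z ∧ g • y = x :=
    fun x y z ⟨g, h1, h2⟩ => ⟨g⁻¹, inv_smul_eq_iff.2 h1.symm, inv_smul_eq_iff.2 h2.symm⟩
  ext z
  rw [UniA_mem, UniA_mem]
  exact not_congr ⟨h x y z, h y x z⟩

theorem UniA_tri (x y w : Ω) : (sep G x w).card ≤ (sep G x y).card + (sep G y w).card := by
  refine le_trans (card_le_card fun z hz => ?_) (card_union_le _ _)
  rw [mem_union, UniA_mem, UniA_mem, ← not_and_or]
  rintro ⟨⟨g, h1, h2⟩, g', h3, h4⟩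
  exact UniA_mem.1 hz ⟨g' * g, by rw [mul_smul, h1, h3], by rw [mul_smul, h2, h4]⟩

omit [DecidableEq Ω] in
theorem UniA_le (g : G) (x y : Ω) : (sep G x y).card ≤ (sep G (g • x) (g • y)).card := by
  refine card_le_card_of_injOn (fun z => g • z) (fun z hz => ?_)
    (MulAction.injective g).injOn
  refine mem_coe.2 (UniA_mem.2 fun ⟨u, h1, h2⟩ => UniA_mem.1 (mem_coe.1 hz) ⟨g⁻¹ * u * g, ?_, ?_⟩)
  · rw [mul_smul, mul_smul, h1, inv_smul_smul]
  · rw [mul_smul, mul_smul, h2, inv_smul_smul]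

omit [DecidableEq Ω] in
theorem UniA_smul (g : G) (x y : Ω) : (sep G (g • x) (g • y)).card = (sep G x y).card :=
  le_antisymm (by simpa only [inv_smul_smul] using UniA_le g⁻¹ (g • x) (g • y)) (UniA_le g x y)

/-- The balls of a graph given by its neighbourhoods. -/
def UniA_ball (nb : Ω → Finset Ω) (x : Ω) : ℕ → Finset Ω
  | 0 => {x}
  | m + 1 => UniA_ball nb x m ∪ (UniA_ball nb x m).biUnion nb

theorem UniA_grow (nb : Ω → Finset Ω) (x : Ω) (k : ℕ) (hk : ∀ v, (nb v).card = k)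
    (hi : ∀ v, v ∉ nb v) (hs : ∀ v w, w ∈ nb v → v ∈ nb w)
    (hc : ∀ S : Finset Ω, x ∈ S → (∀ v ∈ S, nb v ⊆ S) → S = univ) (j : ℕ) :
    UniA_ball nb x (3 * j) = univ ∨ j * (k + 1) ≤ (UniA_ball nb x (3 * j)).card := by
  have m1 : ∀ m, UniA_ball nb x m ⊆ UniA_ball nb x (m + 1) := fun m => subset_union_left
  have m2 : ∀ m, ∀ v ∈ UniA_ball nb x m, nb v ⊆ UniA_ball nb x (m + 1) := fun m v hv =>
    (subset_biUnion_of_mem nb hv).trans subset_union_right
  have m0 : ∀ m, x ∈ UniA_ball nb x m := fun m => by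
    induction m with
    | zero => exact mem_singleton_self x
    | succ m ih => exact m1 m ih
  induction j with
  | zero => exact Or.inr (by simp)
  | succ j ih =>
    rw [show 3 * (j + 1) = 3 * j + 1 + 1 + 1 by ring]
    have m3 := (m1 (3 * j)).trans ((m1 _).trans (m1 _))
    rcases ih with ih | ih
    · exact Or.inl (univ_subset_iff.1 (ih ▸ m3))
    by_cases h : UniA_ball nb x (3 * j + 1 + 1) ⊆ UniA_ball nb x (3 * j + 1)
    · exact Or.inl (univ_subset_iff.1
        (hc _ (m0 _) (fun v hv => (m2 _ v hv).trans h) ▸ (m1 _).trans (m1 _)))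
    obtain ⟨v, h1, h2⟩ := not_subset.1 h
    have d1 : Disjoint (UniA_ball nb x (3 * j)) (insert v (nb v)) := by
      rw [disjoint_left]
      intro w hw hw'
      rcases mem_insert.1 hw' with rfl | hw'
      · exact h2 (m1 _ hw)
      · exact h2 (m2 _ w hw (hs v w hw'))
    have d2 := card_le_card (union_subset m3 (insert_subset (m1 _ h1) (m2 _ v h1)))
    rw [card_union_of_disjoint d1, card_insert_of_notMem (hi v), hk] at d2
    exact Or.inr (by rw [add_mul, one_mul]; omega)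

theorem sep_max (hp : PrimOn G (univ : Finset Ω)) [IsPretransitive G Ω] {d : ℕ}
    (hd : ∀ x y : Ω, x ≠ y → d ≤ (sep G x y).card) {a b : Ω} (hab : a ≠ b)
    (h : (sep G a b).card = d) (x y : Ω) : (sep G x y).card ≤ 3 * d * d := by
  obtain ⟨E, hE⟩ : ∃ E : Ω → Ω → Prop, ∀ v w, E v w ↔ v ≠ w ∧ (sep G v w).card = d :=
    ⟨_, fun _ _ => Iff.rfl⟩
  have es : ∀ v w, E v w → E w v := fun v w e =>
    (hE w v).2 ⟨((hE v w).1 e).1.symm, by rw [UniA_symm]; exact ((hE v w).1 e).2⟩
  have eg : ∀ (g : G) v w, E v w → E (g • v) (g • w) := fun g v w e =>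
    (hE _ _).2 ⟨(MulAction.injective g).ne ((hE v w).1 e).1, by
      rw [UniA_smul]; exact ((hE v w).1 e).2⟩
  have tot : ∀ v w, Relation.ReflTransGen E v w := by
    rcases hp (Relation.ReflTransGen E) ⟨fun _ => .refl, fun {v w} e => by
      induction e with
      | refl => exact .refl
      | tail _ e ih => exact .head (es _ _ e) ih, fun e e' => e.trans e'⟩ (fun g v w e => by
      induction e with
      | refl => exact .refl
      | tail _ e ih => exact ih.tail (eg g _ _ e)) with t | t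
    · exact absurd (t a (mem_univ _) b (mem_univ _) (.single ((hE a b).2 ⟨hab, h⟩))) hab
    · exact fun v w => t v (mem_univ _) w (mem_univ _)
  have cl : ∀ S : Ω → Prop, S x → (∀ v w, S v → E v w → S w) → ∀ w, S w := fun S h0 h1 w => by
    induction tot x w with
    | refl => exact h0
    | tail _ e ih => exact h1 _ _ ih e
  classical
  obtain ⟨nb, hnb⟩ : ∃ nb : Ω → Finset Ω, ∀ v w, w ∈ nb v ↔ E v w :=
    ⟨fun v => univ.filter (E v), fun v w => by simp⟩
  have k1 : ∀ (g : G) v, (nb v).card ≤ (nb (g • v)).card := fun g v =>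
    card_le_card_of_injOn (fun z => g • z)
      (fun z hz => mem_coe.2 ((hnb _ _).2 (eg g _ _ ((hnb _ _).1 (mem_coe.1 hz)))))
      (MulAction.injective g).injOn
  have hk : ∀ v, (nb v).card = (nb x).card := fun v => by
    obtain ⟨g, hg⟩ := exists_smul_eq G v x
    obtain ⟨g', hg'⟩ := exists_smul_eq G x v
    exact le_antisymm (hg ▸ k1 g v) (by simpa only [hg'] using k1 g' x)
  have c1 : (univ : Finset Ω) ⊆ (nb x).biUnion (sep G x) := fun z _ => by
    by_contra hz
    have h1 : ∀ w, E x w → ∃ g : G, g • z = z ∧ g • x = w := fun w e => by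
      by_contra h2
      exact hz (mem_biUnion.2 ⟨w, (hnb _ _).2 e, UniA_mem.2 h2⟩)
    have h2 := cl (fun w => ∃ g : G, g • z = z ∧ g • x = w) ⟨1, one_smul _ _, one_smul _ _⟩
      (by
        rintro _ w ⟨g, h3, rfl⟩ e
        obtain ⟨u, h4, h5⟩ := h1 (g⁻¹ • w) (by simpa only [inv_smul_smul] using eg g⁻¹ _ _ e)
        exact ⟨g * u, by rw [mul_smul, h4, h3], by rw [mul_smul, h5, smul_inv_smul]⟩)
    obtain ⟨g, h3, h4⟩ := h2 z
    obtain rfl : x = z := MulAction.injective g (h4.trans h3.symm)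
    obtain ⟨_, h5, h6⟩ := h2 a
    obtain ⟨_, h7, h8⟩ := h2 b
    exact hab ((h6.symm.trans h5).trans (h7.symm.trans h8))
  have c2 : (univ : Finset Ω).card ≤ (nb x).card * d :=
    (card_le_card c1).trans (card_biUnion_le_card_mul _ _ _ fun w hw =>
      ((hE _ _).1 ((hnb _ _).1 hw)).2.le)
  have d0 : 0 < d := h ▸ card_pos.2 ⟨a, UniA_mem.2 fun ⟨_, h1, h2⟩ => hab (h1.symm.trans h2)⟩
  have bd : ∀ m, ∀ w ∈ UniA_ball nb x m, (sep G x w).card ≤ m * d := fun m => by
    induction m with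
    | zero =>
      intro w hw
      obtain rfl : w = x := mem_singleton.1 hw
      rw [zero_mul, Nat.le_zero, card_eq_zero, eq_empty_iff_forall_notMem]
      exact fun z hz => UniA_mem.1 hz ⟨1, one_smul _ _, one_smul _ _⟩
    | succ m ih =>
      intro w hw
      rw [add_mul, one_mul]
      rcases mem_union.1 hw with hw | hw
      · exact (ih w hw).trans (Nat.le_add_right _ _)
      · obtain ⟨v, h1, h2⟩ := mem_biUnion.1 hw
        exact (UniA_tri x v w).trans (add_le_add (ih v h1) ((hE _ _).1 ((hnb _ _).1 h2)).2.le)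
  rcases UniA_grow nb x _ hk (fun v e => ((hE _ _).1 ((hnb _ _).1 e)).1 rfl)
    (fun v w e => (hnb _ _).2 (es _ _ ((hnb _ _).1 e)))
    (fun S h0 h1 => eq_univ_of_forall (cl (· ∈ S) h0 fun v w hv e => h1 v hv ((hnb _ _).2 e)))
    d with t | t
  · exact bd _ y (t ▸ mem_univ y)
  · have t2 := (t.trans (card_le_univ _)).trans (card_univ (α := Ω) ▸ c2)
    rw [mul_add, mul_one, mul_comm] at t2
    omega

end Pool.Agent.Lib.MP_5c8dfa_al.LS
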