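import Pool.Agent.Lib.MP_5c8dfa_al.LS.Defs

/-! Some separating set is large. -/

namespace Pool.Agent.Lib.MP_5c8dfa_al.LS

open Finset MulAction

variable {G Ω : Type} [Group G] [MulAction G Ω] [Fintype Ω] [DecidableEq Ω]

omit [DecidableEq Ω] in
theorem uniB_card (p q : Ω → Prop) [DecidablePred p] [DecidablePred q] (g : G)
    (h : ∀ x, p x ↔ q (g • x)) : (univ.filter p).card = (univ.filter q).card :=
  card_equiv (MulAction.toPerm g) fun x => by simpa using h x

omit [DecidableEq Ω] in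
theorem uniB_swap (r : Ω → Ω → Prop) [∀ x y, Decidable (r x y)] :
    ∑ x, (univ.filter fun y => r x y).card = ∑ y, (univ.filter fun x => r x y).card := by
  simp only [card_filter]
  exact sum_comm

theorem uniB_main (hp : PrimOn G (univ : Finset Ω)) [IsPretransitive G Ω]
    (h2 : ¬ IsMultiplyPretransitive G Ω 2) {z0 y0 : Ω} (hne : y0 ≠ z0) (O : Ω → Ω → Prop)
    [∀ x y, Decidable (O x y)] (hO : ∀ z x, O z x ↔ ¬ ∃ g : G, g • z0 = z ∧ g • y0 = x) :
    (univ.filter fun x => ¬ O z0 x).card ≤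
      (univ.filter (O z0)).card * (univ.filter (O z0)).card := by
  have h0 : ∀ z, O z z := fun z => (hO z z).2 fun ⟨g, h1, h2⟩ =>
    hne (MulAction.injective g (h2.trans h1.symm))
  have hi : ∀ (g : G) z x, O z x → O (g • z) (g • x) := fun g z x h => (hO _ _).2
    fun ⟨k, h1, h2⟩ => (hO _ _).1 h ⟨g⁻¹ * k, by rw [mul_smul, h1, inv_smul_smul],
      by rw [mul_smul, h2, inv_smul_smul]⟩
  have hi' : ∀ (g : G) z x, O z x ↔ O (g • z) (g • x) := fun g z x =>
    ⟨hi g z x, fun h => by simpa using hi g⁻¹ _ _ h⟩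
  have h1 : ∀ z, (univ.filter (O z)).card = (univ.filter (O z0)).card := fun z => by
    obtain ⟨g, rfl⟩ := exists_smul_eq G z0 z
    exact (uniB_card _ _ g fun x => hi' g z0 x).symm
  have h3 : ∀ u, (univ.filter fun y => O y u).card = (univ.filter fun y => O y z0).card :=
    fun u => by
      obtain ⟨g, rfl⟩ := exists_smul_eq G z0 u
      exact (uniB_card _ _ g fun y => hi' g y z0).symm
  have h4 : (univ.filter fun y => O y z0).card = (univ.filter (O z0)).card := by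
    have := uniB_swap O
    simp only [h1, h3, sum_const, smul_eq_mul] at this
    exact (Nat.eq_of_mul_eq_mul_left (card_pos.2 ⟨z0, mem_univ _⟩) this).symm
  by_cases hA : ∃ y u, O z0 u ∧ O y u ∧ ¬ O z0 y
  · obtain ⟨y, u, a1, a2, a3⟩ := hA
    obtain ⟨g, g1, g2⟩ := not_not.1 (mt (hO _ _).2 a3)
    refine (card_le_card (t := (univ.filter (O z0)).biUnion fun u => univ.filter fun y => O y u)
      fun y' hy' => ?_).trans (card_biUnion_le_card_mul _ _ _ fun u _ => ((h3 u).trans h4).le)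
    obtain ⟨k, k1, k2⟩ := not_not.1 (mt (hO _ _).2 (mem_filter.1 hy').2)
    have e1 : (k * g⁻¹) • z0 = z0 := by
      rw [mul_smul, inv_smul_eq_iff.2 g1.symm, k1]
    have e2 : (k * g⁻¹) • y = y' := by
      rw [mul_smul, inv_smul_eq_iff.2 g2.symm, k2]
    refine mem_biUnion.2 ⟨(k * g⁻¹) • u, mem_filter.2 ⟨mem_univ _, ?_⟩,
      mem_filter.2 ⟨mem_univ _, e2 ▸ hi _ _ _ a2⟩⟩
    have := hi (k * g⁻¹) _ _ a1
    rwa [e1] at this
  · exfalso
    have h5 : ∀ x y u, O x u → O y u → O x y := fun x y u a1 a2 => by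
      obtain ⟨g, rfl⟩ := exists_smul_eq G z0 x
      by_contra a3
      refine hA ⟨g⁻¹ • y, g⁻¹ • u, by simpa using hi g⁻¹ _ _ a1, hi _ _ _ a2, fun a4 => a3 ?_⟩
      simpa using hi g _ _ a4
    have h6 : ∀ x y, O x y → O y x := fun x y a => h5 y x y (h0 y) a
    rcases hp O ⟨h0, h6 _ _, fun a b => h5 _ _ _ a (h6 _ _ b)⟩ hi with h7 | h7
    · refine h2 (is_two_pretransitive_iff.2 fun {a b c d} hab hcd => ?_)
      obtain ⟨g, g1, g2⟩ := not_not.1 (mt (hO a b).2 fun e => hab (h7 a (mem_univ _) b (mem_univ _) e))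
      obtain ⟨k, k1, k2⟩ := not_not.1 (mt (hO c d).2 fun e => hcd (h7 c (mem_univ _) d (mem_univ _) e))
      exact ⟨k * g⁻¹, by rw [mul_smul, inv_smul_eq_iff.2 g1.symm, k1],
        by rw [mul_smul, inv_smul_eq_iff.2 g2.symm, k2]⟩
    · exact (hO _ _).1 (h7 z0 (mem_univ _) y0 (mem_univ _)) ⟨1, one_smul _ _, one_smul _ _⟩

theorem sep_big (hp : PrimOn G (univ : Finset Ω)) [IsPretransitive G Ω]
    (h2 : ¬ IsMultiplyPretransitive G Ω 2) {M : ℕ} (hM : ∀ x y : Ω, (sep G x y).card ≤ M) :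
    Fintype.card Ω ≤ 2 * M * M := by
  classical
  obtain ⟨a, b, hab⟩ : ∃ a b : Ω, a ≠ b := by
    by_contra! h
    exact h2 (is_two_pretransitive_iff.2 fun {a b c d} hab _ => absurd (h a b) hab)
  obtain ⟨⟨z0, y0⟩, -, hm⟩ := exists_min_image (univ : Finset (Ω × Ω))
    (fun p => (univ.filter fun y => ¬ ∃ g : G, g • p.1 = p.1 ∧ g • p.2 = y).card)
    ⟨(a, a), mem_univ _⟩
  have h1 : (univ.filter fun y => ¬ ∃ g : G, g • z0 = z0 ∧ g • y0 = y).card ≤ M := by
    have e1 := uniB_swap fun z y : Ω => ¬ ∃ g : G, g • z = z ∧ g • a = y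
    have e2 := card_nsmul_le_sum univ _ _ fun z (_ : z ∈ (univ : Finset Ω)) => hm (z, a) (mem_univ _)
    have e3 : ∑ y : Ω, (univ.filter fun z : Ω => ¬ ∃ g : G, g • z = z ∧ g • a = y).card ≤
        (univ : Finset Ω).card • M := sum_le_card_nsmul _ _ _ fun y _ => by
      refine le_trans (le_of_eq ?_) (hM a y)
      unfold sep
      congr
    exact Nat.le_of_mul_le_mul_left ((e2.trans e1.le).trans e3) (card_pos.2 ⟨a, mem_univ _⟩)
  have h3 := card_filter_add_card_filter_not (s := (univ : Finset Ω))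
    fun y => ¬ ∃ g : G, g • z0 = z0 ∧ g • y0 = y
  rw [card_univ] at h3
  have h4 : (univ.filter fun y => ¬ ¬ ∃ g : G, g • z0 = z0 ∧ g • y0 = y).card ≤
      (univ.filter fun y => ¬ ∃ g : G, g • z0 = z0 ∧ g • y0 = y).card *
        (univ.filter fun y => ¬ ∃ g : G, g • z0 = z0 ∧ g • y0 = y).card := by
    by_cases hne : y0 = z0
    · have e1 : (univ.filter fun y => ¬ ¬ ∃ g : G, g • z0 = z0 ∧ g • y0 = y).card ≤ 1 :=
        card_le_one.2 fun x hx y hy => by
          obtain ⟨g, g1, g2⟩ := not_not.1 (mem_filter.1 hx).2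
          obtain ⟨k, k1, k2⟩ := not_not.1 (mem_filter.1 hy).2
          rw [← g2, ← k2, hne, g1, k1]
      have e2 : 1 < Fintype.card Ω := Fintype.one_lt_card_iff.2 ⟨a, b, hab⟩
      exact e1.trans (Nat.mul_pos (by omega) (by omega))
    · exact uniB_main hp h2 hne (fun z x => ¬ ∃ g : G, g • z0 = z ∧ g • y0 = x) fun _ _ => Iff.rfl
  have h5 := Nat.mul_le_mul h1 h1
  have h6 := h1.trans (Nat.le_mul_self M)
  rw [mul_assoc]
  omega

end Pool.Agent.Lib.MP_5c8dfa_al.LS
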