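import Pool.Agent.Lib.MP_5c8dfa_al.LS.Hit
import Pool.Agent.Lib.MP_5c8dfa_al.LS.UniA
import Pool.Agent.Lib.MP_5c8dfa_al.LS.UniB

/-! Primitive groups that are not doubly transitive have small bases. -/

namespace Pool.Agent.Lib.MP_5c8dfa_al.LS

open Finset MulAction

variable {G Ω : Type} [Group G] [MulAction G Ω] [Fintype Ω] [DecidableEq Ω]

theorem uni (hp : PrimOn G (univ : Finset Ω)) [IsPretransitive G Ω]
    (h2 : ¬ IsMultiplyPretransitive G Ω 2) {D L k : ℕ} (hD0 : 0 < D)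
    (hD : 18 * D ^ 4 ≤ Fintype.card Ω) (hL : Fintype.card Ω ^ 2 < 2 ^ L)
    (hk : Fintype.card Ω * L ≤ D * k) : ∃ S : Finset Ω, IsBase G S ∧ S.card ≤ k := by
  have h1 : 1 < Fintype.card Ω := by
    have : 0 < D ^ 4 := by positivity
    omega
  obtain ⟨x0, y0, h0⟩ := Fintype.exists_pair_of_one_lt_card h1
  obtain ⟨p, hp1, hp2⟩ := exists_min_image ((univ : Finset (Ω × Ω)).filter fun p => p.1 ≠ p.2)
    (fun p => (sep G p.1 p.2).card) ⟨(x0, y0), mem_filter.2 ⟨mem_univ _, h0⟩⟩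
  have hd : ∀ x y : Ω, x ≠ y → (sep G p.1 p.2).card ≤ (sep G x y).card := fun x y h =>
    hp2 (x, y) (mem_filter.2 ⟨mem_univ _, h⟩)
  have hn := sep_big hp h2 (sep_max hp hd (mem_filter.1 hp1).2 rfl)
  have hDd : D ≤ (sep G p.1 p.2).card := by
    refine le_of_pow_le_pow_left₀ (n := 4) (by norm_num) (Nat.zero_le _) ?_
    nlinarith
  obtain ⟨S, hS, hS2⟩ := hit ((univ : Finset (Ω × Ω)).filter fun p => p.1 ≠ p.2)
    (fun p => sep G p.1 p.2) hD0 (fun q hq => hDd.trans (hp2 q hq))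
    (lt_of_le_of_lt (by
      refine (card_filter_le _ _).trans ?_
      rw [card_univ, Fintype.card_prod, sq]) hL) hk
  refine ⟨S, fun g hg x => ?_, hS⟩
  by_contra h
  obtain ⟨z, hz, hz2⟩ := hS2 (x, g • x) (mem_filter.2 ⟨mem_univ _, fun e => h e.symm⟩)
  simp only [sep, mem_filter] at hz2
  exact hz2.2 ⟨g, hg z hz, rfl⟩

end Pool.Agent.Lib.MP_5c8dfa_al.LS
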